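import Pool.Agent.Helper28.Ram.Mach
import Pool.Agent.Helper78.Mpc.MMain

/-!
# The bounds of the theorem and the parameters of the simulation
-/

namespace Pool.Agent.Helper28.Ram

open Pool.Agent.Helper65.LinSpace Pool.Agent.Helper78.Mpc Finset Filter

theorem lt_gR_sq (n : ℕ) : n + 1 ≤ gR n * gR n * ll n := by
  have hp := ll_pos n
  have h1 : n / ll n < gR n * gR n := Nat.lt_succ_sqrt _
  have h2 : n < (n / ll n + 1) * ll n := by
    have := Nat.lt_div_mul_add (a := n) (b := ll n) hp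
    rw [add_mul, one_mul]
    exact this
  have h3 : (n / ll n + 1) * ll n ≤ gR n * gR n * ll n := Nat.mul_le_mul_right _ h1
  omega

theorem par3 (C : ℝ) : ∀ᶠ n : ℕ in atTop, ∀ r s : ℕ, 1 ≤ s →
    (r : ℝ) * s ≤ C * ((n : ℝ) + 1) ^ ((3 : ℝ) / 2) / ((Nat.log 2 n : ℝ) + 1) ^ 2 →
    (s : ℝ) ≤ C * ((n : ℝ) + 1) ^ ((1 : ℝ) / 2) / ((Nat.log 2 n : ℝ) + 1) →
    s < gR n ∧ r ≤ gR n * (gR n * (gR n / (s + 1))) := by
  obtain ⟨k, hk⟩ := exists_nat_gt ((4 * |C| + 1) ^ 2)
  filter_upwards [ev_ll_ge k] with n hn r s hs h1 h2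
  have hC : C ≤ |C| := le_abs_self C
  have hC0 := abs_nonneg C
  have hl : ((ll n : ℕ) : ℝ) = (Nat.log 2 n : ℝ) + 1 := by
    unfold ll
    push_cast
    ring
  rw [← hl] at h1 h2
  have hlk : (4 * |C| + 1) ^ 2 < (ll n : ℝ) := lt_of_lt_of_le hk (by exact_mod_cast hn)
  have hN : ((n : ℝ) + 1) ≤ (gR n : ℝ) * gR n * ll n := by exact_mod_cast lt_gR_sq n
  set g : ℝ := (gR n : ℝ) with hg
  have hg1 : (1 : ℝ) ≤ g := by
    rw [hg]
    exact_mod_cast Nat.succ_pos _
  set u : ℝ := Real.sqrt (ll n) with hu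
  have hl0 : (0 : ℝ) ≤ ll n := Nat.cast_nonneg _
  have hu0 : 0 ≤ u := Real.sqrt_nonneg _
  have huu : u * u = ll n := Real.mul_self_sqrt hl0
  have hub : 4 * |C| + 1 < u := by
    rw [hu]
    exact Real.lt_sqrt_of_sq_lt hlk
  set v : ℝ := Real.sqrt ((n : ℝ) + 1) with hv
  have hn0 : (0 : ℝ) ≤ (n : ℝ) + 1 := by positivity
  have hv0 : 0 ≤ v := Real.sqrt_nonneg _
  have hvv : v * v = (n : ℝ) + 1 := Real.mul_self_sqrt hn0
  have e1 : ((n : ℝ) + 1) ^ ((1 : ℝ) / 2) = v := by rw [hv, Real.sqrt_eq_rpow]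
  have e3 : ((n : ℝ) + 1) ^ ((3 : ℝ) / 2) = v * v * v := by
    have : (3 : ℝ) / 2 = 1 + 1 / 2 := by norm_num
    rw [this, Real.rpow_add (by positivity), Real.rpow_one, e1, hvv]
  rw [e3] at h1
  rw [e1] at h2
  have hvg : v ≤ g * u := by
    have h3 : v * v ≤ (g * u) * (g * u) := by
      rw [hvv]
      calc (n : ℝ) + 1 ≤ g * g * ll n := hN
        _ = (g * u) * (g * u) := by rw [← huu]; ring
    exact abs_le_of_sq_le_sq' (by nlinarith) (by positivity) |>.2
  have hu1 : 0 < u := by linarith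
  rw [← huu] at h1 h2
  have hs0 : (1 : ℝ) ≤ s := by exact_mod_cast hs
  -- the length of the words
  have h4 : (s : ℝ) * u ≤ |C| * g := by
    have h5 : (s : ℝ) * (u * u) ≤ C * v := by
      rwa [le_div_iff₀ (by positivity)] at h2
    have h6 : C * v ≤ |C| * (g * u) := mul_le_mul hC hvg hv0 hC0
    have h7 : (s : ℝ) * u * u ≤ |C| * g * u := by nlinarith
    exact le_of_mul_le_mul_right h7 hu1
  have h8 : 4 * (s : ℝ) ≤ g := by
    have h9 : (s : ℝ) * (4 * |C| + 1) ≤ (s : ℝ) * u :=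
      mul_le_mul_of_nonneg_left hub.le (by linarith)
    have h10 : 0 < |C| := by
      rcases hC0.lt_or_eq with h | h
      · exact h
      · rw [← h] at h4
        nlinarith
    nlinarith
  have h11 : 4 * s ≤ gR n := by
    rw [hg] at h8
    exact_mod_cast h8
  -- the running time
  have h12 : 4 * ((r : ℝ) * s) ≤ g * g * g := by
    have h13 : (r : ℝ) * s * ((u * u) * (u * u)) ≤ C * (v * v * v) := by
      rw [le_div_iff₀ (by positivity)] at h1
      calc _ = (r : ℝ) * s * (u * u) ^ 2 := by ring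
        _ ≤ _ := h1
    have h14 : C * (v * v * v) ≤ |C| * ((g * u) * (g * u) * (g * u)) :=
      mul_le_mul hC (mul_le_mul (mul_le_mul hvg hvg hv0 (by positivity)) hvg hv0 (by positivity))
        (by positivity) hC0
    have h15 : ((r : ℝ) * s * u) * (u * u * u) ≤ (|C| * (g * g * g)) * (u * u * u) := by
      calc _ = (r : ℝ) * s * ((u * u) * (u * u)) := by ring
        _ ≤ |C| * ((g * u) * (g * u) * (g * u)) := h13.trans h14
        _ = _ := by ring
    have h16 : (r : ℝ) * s * u ≤ |C| * (g * g * g) :=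
      le_of_mul_le_mul_right h15 (by positivity)
    have hrs : (0 : ℝ) ≤ (r : ℝ) * s := by positivity
    have h17 : (r : ℝ) * s * (4 * |C| + 1) ≤ (r : ℝ) * s * u :=
      mul_le_mul_of_nonneg_left hub.le hrs
    have hggg : (0 : ℝ) < g * g * g := by positivity
    rcases hC0.lt_or_eq with h | h
    · have h18 : |C| * (4 * ((r : ℝ) * s)) ≤ |C| * (g * g * g) := by nlinarith
      exact le_of_mul_le_mul_left h18 h
    · rw [← h] at h16 h17
      nlinarith
  have h19 : 4 * (r * s) ≤ gR n * gR n * gR n := by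
    rw [hg] at h12
    exact_mod_cast h12
  refine ⟨by omega, ?_⟩
  set b := gR n / (s + 1) with hb
  have hb1 : 1 ≤ b := by
    rw [hb, Nat.le_div_iff_mul_le (by omega)]
    omega
  have h20 : gR n ≤ 4 * s * b := by
    have h21 : gR n < (b + 1) * (s + 1) := by
      have := Nat.lt_div_mul_add (a := gR n) (b := s + 1) (by omega)
      rw [add_mul, one_mul]
      exact this
    have h22 : (b + 1) * (s + 1) ≤ (2 * b) * (2 * s) := Nat.mul_le_mul (by omega) (by omega)
    have h23 : (2 * b) * (2 * s) = 4 * s * b := by ring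
    omega
  have h24 : 4 * (r * s) ≤ 4 * (gR n * (gR n * b) * s) := by
    calc 4 * (r * s) ≤ gR n * gR n * gR n := h19
      _ ≤ gR n * gR n * (4 * s * b) := Nat.mul_le_mul_left _ h20
      _ = _ := by ring
  have h25 : r * s ≤ gR n * (gR n * b) * s := by omega
  exact Nat.le_of_mul_le_mul_right h25 hs

end Pool.Agent.Helper28.Ram
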