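import Pool.Agent.Helper28.Ram.Sim
import Pool.Agent.Helper28.Ram.Par3
import Pool.Agent.Helper78.Avg.Cases
import Pool.Agent.Helper78.Mpc.MMain

/-!
# Random access machines are weaker than linear space
-/

namespace Pool.Agent.Helper28.Ram

open Pool.Agent.Helper65.LinSpace Pool.Agent.Helper78.Mpc Pool.Agent.Helper78.Avg Finset Filter
  Topology

/-- All parts. -/
structure Parts : Prop where
  FLAT : FLAT_stmt
  REL : REL_stmt
  FINAL : FINAL_stmt
  LSOP : LSOP_stmt
  MCOR : MCOR_stmt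
  MLS : MLS_stmt
  PAR1 : PAR1_stmt
  PAR2 : PAR2_stmt
  PAR4 : PAR4_stmt

variable {α : Type} [Ctx α]

theorem LS.gR {n : α → ℕ} (hn : LS n) : LS (fun a => gR (n a)) := by
  unfold Ram.gR
  fun_prop

theorem LS.pR {n : α → ℕ} (hn : LS n) : LS (fun a => pR (n a)) := by
  unfold Ram.pR
  fun_prop

theorem LS.JR {n : α → ℕ} (hn : LS n) : LS (fun a => JR (n a)) := by
  have h := LS.gR hn
  unfold Ram.JR
  fun_prop

theorem gR_pos (n : ℕ) : 0 < gR n := Nat.succ_pos _

theorem pR_prime (n : ℕ) : (pR n).Prime := (nextPrime_spec (by positivity)).1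

/-- **The simulation theorem.** The state of a machine on numbers after
`gR n * (gR n * (gR n / σ))` steps is computed in linear space. -/
theorem LS.simG (P : Parts) {m : α → Mach} {x S : α → ℕ} (hx : LS x)
    (hM : LSM m (fun z => CR (x z)))
    (h1 : ∀ z, (m z).σ = min (S z) (Ram.gR (Nat.log 2 (x z)) - 1) + 1)
    (h2 : ∀ z, (m z).G = Ram.gR (Nat.log 2 (x z)))
    (h3 : ∀ z, (m z).b = Ram.gR (Nat.log 2 (x z)) / (m z).σ) :
    LS (fun z => (m z).sim (Ram.pR (Nat.log 2 (x z))) (Ram.JR (Nat.log 2 (x z)))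
      (Ram.gR (Nat.log 2 (x z)))) := by
  have hg : LS (fun z => Ram.gR (Nat.log 2 (x z))) := LS.gR (by fun_prop)
  have hp : LS (fun z => Ram.pR (Nat.log 2 (x z))) := LS.pR (by fun_prop)
  have hJ : LS (fun z => Ram.JR (Nat.log 2 (x z))) := LS.JR (by fun_prop)
  have hC := hM.bd
  have hσ := hM.σ
  have hb := hM.b
  have hG := hM.G
  have hpp : ∀ z, 0 < Ram.pR (Nat.log 2 (x z)) := fun z => (pR_prime _).pos
  have hp1 : ∀ z, 0 < Ram.pR (Nat.log 2 (x z)) - 1 := fun z => by
    have := (pR_prime (Nat.log 2 (x z))).two_le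
    omega
  obtain ⟨hop, hbase⟩ := P.LSOP hM hp hpp
  have hPar2 := fun z => P.PAR2 (x z) (S z) (m z) (h1 z) (h2 z) (h3 z)
  have hcnt0 : ∀ z l, 0 < (m z).cnt (Ram.pR (Nat.log 2 (x z))) l := by
    intro z l
    unfold Mach.cnt ifz
    split_ifs
    · positivity
    · exact Nat.mul_pos (hp1 z) (by omega)
  have hpw : LS (fun z => 2 ^ ((m z).σ * ((m z).b + 1))) := by
    refine LS.pow_of_le (f := fun _ => 2) (C := fun z => CR (x z)) (by fun_prop) (by fun_prop) hC
      fun z => ?_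
    have h := (hPar2 z).2
    have h0 : 0 < Ram.gR (Nat.log 2 (x z)) * ((m z).G + 2) :=
      Nat.mul_pos (gR_pos _) (by omega)
    refine le_trans ?_ h
    have h7 : (m z).cnt (Ram.pR (Nat.log 2 (x z))) 0 ≤
        ∏ l ∈ range (Ram.gR (Nat.log 2 (x z)) * ((m z).G + 2)),
          (m z).cnt (Ram.pR (Nat.log 2 (x z))) l :=
      Finset.single_le_prod' (f := fun l => (m z).cnt (Ram.pR (Nat.log 2 (x z))) l)
        (fun l _ => hcnt0 z l) (mem_range.2 h0)
    refine le_trans ?_ h7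
    unfold Mach.cnt
    rw [Nat.zero_mod, ifz_zero]
    exact Nat.le_mul_of_pos_right _ (by omega)
  have hcnt : LS (fun z : α × ℕ => (m z.1).cnt (Ram.pR (Nat.log 2 (x z.1))) z.2) := by
    unfold Mach.cnt
    have a1 : LS (fun z : α × ℕ => (m z.1).G) := LS.comp (f := fun z : α × ℕ => z.1) hG
      (by fun_prop)
    have a2 : LS (fun z : α × ℕ => (m z.1).b) := LS.comp (f := fun z : α × ℕ => z.1) hb
      (by fun_prop)
    have a3 : LS (fun z : α × ℕ => 2 ^ ((m z.1).σ * ((m z.1).b + 1))) :=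
      LS.comp (f := fun z : α × ℕ => z.1) hpw (by fun_prop)
    have a4 : LS (fun z : α × ℕ => Ram.pR (Nat.log 2 (x z.1))) :=
      LS.comp (f := fun z : α × ℕ => z.1) hp (by fun_prop)
    fun_prop
  have hini : LS (fun z : α × ℕ => (m z.1).initA (Ram.gR (Nat.log 2 (x z.1))) z.2) := by
    unfold Mach.initA
    have a1 : LS (fun z : α × ℕ => (m z.1).G) := LS.comp (f := fun z : α × ℕ => z.1) hG
      (by fun_prop)
    have a2 : LS (fun z : α × ℕ => Ram.gR (Nat.log 2 (x z.1))) :=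
      LS.comp (f := fun z : α × ℕ => z.1) hg (by fun_prop)
    fun_prop
  have hflat := P.FLAT (β := fun z => Ram.pR (Nat.log 2 (x z)))
    (Λ := fun z => 7 * Ram.JR (Nat.log 2 (x z)))
    (lv := fun z => Ram.gR (Nat.log 2 (x z)) * ((m z).G + 2)) (C := fun z => CR (x z))
    (cnt := fun z => (m z).cnt (Ram.pR (Nat.log 2 (x z))))
    (base := fun z => (m z).baseA (Ram.pR (Nat.log 2 (x z))))
    (op := fun z => (m z).opA (Ram.pR (Nat.log 2 (x z))))
    (s0 := fun z => (m z).initA (Ram.gR (Nat.log 2 (x z))))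
    hp (by fun_prop) (by fun_prop) hC hcnt hbase hop hini
    (fun z s x => Nat.mod_lt _ (hpp z)) (fun z l j s x => Nat.mod_lt _ (hpp z)) ?_
    (fun z => (hPar2 z).1) (fun z => (hPar2 z).2) hcnt0
  · have hfin : LS (fun z => tab 2 (m z).σ fun o => prc (7 * Ram.JR (Nat.log 2 (x z)))
        ((m z).cnt (Ram.pR (Nat.log 2 (x z)))) ((m z).baseA (Ram.pR (Nat.log 2 (x z))))
        ((m z).opA (Ram.pR (Nat.log 2 (x z)))) (Ram.gR (Nat.log 2 (x z)) * ((m z).G + 2))
        (trc (7 * Ram.JR (Nat.log 2 (x z))) ((m z).initA (Ram.gR (Nat.log 2 (x z)))))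
        (7 * ((m z).G * (m z).wd + o)) % 2) := by
      refine LS.tab (q := fun _ => 2) (m := fun z => (m z).σ) (C := fun z => CR (x z))
        (d := fun z o => prc (7 * Ram.JR (Nat.log 2 (x z)))
        ((m z).cnt (Ram.pR (Nat.log 2 (x z)))) ((m z).baseA (Ram.pR (Nat.log 2 (x z))))
        ((m z).opA (Ram.pR (Nat.log 2 (x z)))) (Ram.gR (Nat.log 2 (x z)) * ((m z).G + 2))
        (trc (7 * Ram.JR (Nat.log 2 (x z))) ((m z).initA (Ram.gR (Nat.log 2 (x z)))))
        (7 * ((m z).G * (m z).wd + o)) % 2) ?_ (LS.const 2) hσ hC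
        (fun z i _ => Nat.mod_lt _ (by norm_num)) hM.hC
      refine LS.mod ?_ (LS.const 2)
      have a0 : LS (fun z : α × ℕ => (m z.1).σ) := LS.comp (f := fun z : α × ℕ => z.1) hσ
        (by fun_prop)
      have a1 : LS (fun z : α × ℕ => (m z.1).G) := LS.comp (f := fun z : α × ℕ => z.1) hG
        (by fun_prop)
      have a2 : LS (fun z : α × ℕ => (m z.1).b) := LS.comp (f := fun z : α × ℕ => z.1) hb
        (by fun_prop)
      have a3 : LS (fun z : α × ℕ => (z.1, 7 * ((m z.1).G * (m z.1).wd + z.2))) := by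
        unfold Mach.wd
        fun_prop
      exact LS.comp (f := fun z : α × ℕ => (z.1, 7 * ((m z.1).G * (m z.1).wd + z.2))) hflat a3
    exact hfin
  · intro z i
    have h4 := (P.PAR1 (Nat.log 2 (x z)) (S z) (m z) (h1 z) (h2 z) (h3 z)).1.h4
    have h5 := (P.PAR1 (Nat.log 2 (x z)) (S z) (m z) (h1 z) (h2 z) (h3 z)).1.h5
    show (m z).initA _ i < _
    unfold Mach.initA
    simp only [ifz_eq01]
    split_ifs <;> omega

/-- The simulation computes the state of the machine. -/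
theorem simG_eq (P : Parts) {m : Mach} (hok : m.Ok) {n S : ℕ}
    (h1 : m.σ = min S (gR n - 1) + 1) (h2 : m.G = gR n) (h3 : m.b = gR n / m.σ) :
    m.sim (pR n) (JR n) (gR n) = (m.conf (gR n * (gR n * (gR n / m.σ)))).1 := by
  have hPar := P.PAR1 n S m h1 h2 h3
  have : Fact (pR n).Prime := ⟨pR_prime _⟩
  rw [Mach.sim_eq P.REL P.FINAL hok hPar.1 hPar.2, h2, h3]

theorem LS.simR (P : Parts) {eA eN eW ini B0 st x y S : α → ℕ}
    (h1 : LS eA) (h2 : LS eN) (h3 : LS eW) (h4 : LS ini) (h5 : LS B0) (h6 : LS st) (hx : LS x)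
    (hy : LS y) (hS : LS S) :
    LS (fun z => simR (eA z) (eN z) (eW z) (ini z) (B0 z) (st z) (x z) (y z) (S z)) :=
  LS.simG P hx (P.MLS h1 h2 h3 h4 h5 h6 hx hy hS) (fun _ => rfl) (fun _ => rfl) (fun _ => rfl)

/-- The number of accepting guesses, with advice. -/
noncomputable def UR (c e a x : ℕ) : ℕ :=
  ∑ y ∈ range (2 ^ (c * Nat.log 2 x + 1)), ∑ S ∈ range (gR (Nat.log 2 x)), lt01 0 y *
    accN (simR (Nat.unpair e).1 (Nat.unpair (Nat.unpair e).2).1
      (Nat.unpair (Nat.unpair (Nat.unpair e).2).2).1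
      (Nat.unpair (Nat.unpair (Nat.unpair (Nat.unpair e).2).2).2).1
      (Nat.unpair (Nat.unpair (Nat.unpair (Nat.unpair (Nat.unpair e).2).2).2).2).1
      (Nat.unpair (Nat.unpair (Nat.unpair (Nat.unpair (Nat.unpair e).2).2).2).2).2 x
      (Pool.Agent.Helper78.Avg.catN a y) S)

theorem LS.UR (P : Parts) (c : ℕ) {e b x : α → ℕ} (he : LS e) (hb : LS b) (hx : LS x) :
    LS (fun a => UR c (e a) (b a) (x a)) := by
  have hcat : LS (fun z : (α × ℕ) × ℕ => Pool.Agent.Helper78.Avg.catN (b z.1.1) z.1.2) := by fun_prop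
  have hsim : LS (fun z : (α × ℕ) × ℕ => Ram.simR (Nat.unpair (e z.1.1)).1
      (Nat.unpair (Nat.unpair (e z.1.1)).2).1
      (Nat.unpair (Nat.unpair (Nat.unpair (e z.1.1)).2).2).1
      (Nat.unpair (Nat.unpair (Nat.unpair (Nat.unpair (e z.1.1)).2).2).2).1
      (Nat.unpair (Nat.unpair (Nat.unpair (Nat.unpair (Nat.unpair (e z.1.1)).2).2).2).2).1
      (Nat.unpair (Nat.unpair (Nat.unpair (Nat.unpair (Nat.unpair (e z.1.1)).2).2).2).2).2
      (x z.1.1) (Pool.Agent.Helper78.Avg.catN (b z.1.1) z.1.2) z.2) :=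
    LS.simR P (by fun_prop) (by fun_prop) (by fun_prop) (by fun_prop) (by fun_prop)
      (by fun_prop) (by fun_prop) hcat (by fun_prop)
  have hacc : LS (fun z : (α × ℕ) × ℕ => lt01 0 z.1.2 * accN (Ram.simR (Nat.unpair (e z.1.1)).1
      (Nat.unpair (Nat.unpair (e z.1.1)).2).1
      (Nat.unpair (Nat.unpair (Nat.unpair (e z.1.1)).2).2).1
      (Nat.unpair (Nat.unpair (Nat.unpair (Nat.unpair (e z.1.1)).2).2).2).1
      (Nat.unpair (Nat.unpair (Nat.unpair (Nat.unpair (Nat.unpair (e z.1.1)).2).2).2).2).1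
      (Nat.unpair (Nat.unpair (Nat.unpair (Nat.unpair (Nat.unpair (e z.1.1)).2).2).2).2).2
      (x z.1.1) (Pool.Agent.Helper78.Avg.catN (b z.1.1) z.1.2) z.2)) := by
    unfold accN
    exact LS.mul (by fun_prop) (LS.mul (LS.lt01 (LS.const 1) hsim) (LS.mod hsim (LS.const 2)))
  have hle : ∀ (y v : ℕ), lt01 0 y * accN v ≤ 1 := by
    intro y v
    calc _ ≤ 1 * 1 := Nat.mul_le_mul (lt01_le_one _ _) (accN_le _)
      _ = 1 := rfl
  unfold Ram.UR
  refine LS.sum_le (N := fun a => 2 ^ (c * Nat.log 2 (x a) + 1))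
    (B := fun a => (Ram.gR (Nat.log 2 (x a))) * 1) (f := fun a y =>
      ∑ S ∈ range (Ram.gR (Nat.log 2 (x a))), lt01 0 y *
    accN (Ram.simR (Nat.unpair (e a)).1 (Nat.unpair (Nat.unpair (e a)).2).1
      (Nat.unpair (Nat.unpair (Nat.unpair (e a)).2).2).1
      (Nat.unpair (Nat.unpair (Nat.unpair (Nat.unpair (e a)).2).2).2).1
      (Nat.unpair (Nat.unpair (Nat.unpair (Nat.unpair (Nat.unpair (e a)).2).2).2).2).1
      (Nat.unpair (Nat.unpair (Nat.unpair (Nat.unpair (Nat.unpair (e a)).2).2).2).2).2 (x a)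
      (Pool.Agent.Helper78.Avg.catN (b a) y) S)) ?_ ?_ ?_ ?_
  · exact LS.sum_le (α := α × ℕ) (N := fun z => Ram.gR (Nat.log 2 (x z.1))) (B := fun _ => 1)
      (f := fun z S => lt01 0 z.2 * accN (Ram.simR (Nat.unpair (e z.1)).1
      (Nat.unpair (Nat.unpair (e z.1)).2).1
      (Nat.unpair (Nat.unpair (Nat.unpair (e z.1)).2).2).1
      (Nat.unpair (Nat.unpair (Nat.unpair (Nat.unpair (e z.1)).2).2).2).1
      (Nat.unpair (Nat.unpair (Nat.unpair (Nat.unpair (Nat.unpair (e z.1)).2).2).2).2).1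
      (Nat.unpair (Nat.unpair (Nat.unpair (Nat.unpair (Nat.unpair (e z.1)).2).2).2).2).2 (x z.1)
      (Pool.Agent.Helper78.Avg.catN (b z.1) z.2) S))
      hacc (LS.gR (by fun_prop)) (by fun_prop) (fun z S _ => hle _ _)
  · refine LS.pow_of_le (f := fun _ => 2) (g := fun a => c * Nat.log 2 (x a) + 1)
      (C := fun a => (x a + 2) ^ (2 * (c + 1))) (by fun_prop) (by fun_prop) (by fun_prop)
      fun a => ?_
    refine le_trans ?_ (Pool.Agent.Helper65.LinSpace.two_pow_log_le (x a) (c + 1))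
    refine Nat.pow_le_pow_right (by norm_num) ?_
    ring_nf
    omega
  · exact LS.mul (LS.gR (by fun_prop)) (LS.const 1)
  · intro a y _
    refine (sum_le_sum (g := fun _ => 1) fun r _ => hle _ _).trans ?_
    simp

/-- The simulation computes the state of the machine on numbers. -/
theorem simR_eq (P : Parts) (eA eN eW ini B0 st x y S : ℕ) (hS : S < gR (Nat.log 2 x)) :
    simR eA eN eW ini B0 st x y S =
      ((machN eA eN eW ini B0 st (LW (Nat.log 2 x)) (2 ^ (2 * ll (Nat.log 2 x))) (CR x) x y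
        (gR (Nat.log 2 x)) S).conf (gR (Nat.log 2 x) * (gR (Nat.log 2 x) *
          (gR (Nat.log 2 x) / (S + 1))))).1 := by
  have hmin : min S (gR (Nat.log 2 x) - 1) = S := min_eq_left (by omega)
  have hM := P.MLS (α := ℕ) (eA := fun _ => eA) (eN := fun _ => eN) (eW := fun _ => eW)
    (ini := fun _ => ini) (B0 := fun _ => B0) (st := fun _ => st) (x := fun _ => x)
    (y := fun _ => y) (S := fun _ => S) (LS.const _) (LS.const _) (LS.const _) (LS.const _)
    (LS.const _) (LS.const _) (LS.const _) (LS.const _) (LS.const _)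
  have h := simG_eq P (hM.ok 0) (S := S) (n := Nat.log 2 x) rfl rfl rfl
  unfold simR
  refine h.trans ?_
  show (Mach.conf _ (gR (Nat.log 2 x) * (gR (Nat.log 2 x) * (gR (Nat.log 2 x) /
    (min S (gR (Nat.log 2 x) - 1) + 1))))).1 = _
  rw [hmin]

/-- Every machine has a code. -/
theorem exists_UR (P : Parts) (A : RAM) (c : ℕ) : ∃ e n₀ : ℕ, ∀ w a : List Bool,
    n₀ ≤ w.length →
    (UR c e (num a) (num w) ≠ 0 → ∃ y r, A.AcceptsAt w (a ++ y) r) ∧
    ∀ y r s, y.length ≤ c * w.length → s < gR w.length →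
      r ≤ gR w.length * (gR w.length * (gR w.length / (s + 1))) →
      A.Fits w (a ++ y) r s → A.AcceptsAt w (a ++ y) r → UR c e (num a) (num w) ≠ 0 := by
  obtain ⟨eA, eN, eW, ini, B0, st, c', hA⟩ := P.MCOR A
  obtain ⟨n₀, hn₀⟩ := eventually_atTop.1 (P.PAR4 c')
  refine ⟨Nat.pair eA (Nat.pair eN (Nat.pair eW (Nat.pair ini (Nat.pair B0 st)))), n₀,
    fun w a hw => ?_⟩
  have hlog : Nat.log 2 (num w) = w.length := Pool.Agent.Helper65.LinSpace.log_num w
  have key : ∀ (y : List Bool) (S : ℕ), S < gR w.length →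
      (accN (simR eA eN eW ini B0 st (num w) (num y) S) = 1 → ∃ t, A.AcceptsAt w y t) ∧
      ∀ r ≤ gR w.length * (gR w.length * (gR w.length / (S + 1))), A.Fits w y r S →
        A.AcceptsAt w y r → accN (simR eA eN eW ini B0 st (num w) (num y) S) = 1 := by
    intro y S hS
    obtain ⟨h1, h2, h3⟩ := hn₀ w.length hw S hS
    obtain ⟨h4, h5⟩ := hA w y S (LW w.length) (2 ^ (2 * ll w.length)) (CR (num w)) (gR w.length)
      h1 h2 (h3 _ hlog)
    have e := simR_eq P eA eN eW ini B0 st (num w) (num y) S (by rwa [hlog])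
    rw [hlog] at e
    rw [e]
    exact ⟨h4 _, fun r hr hf ha => h5 r _ hr hf ha⟩
  unfold UR
  simp only [Nat.unpair_pair]
  rw [hlog]
  constructor
  · intro hne
    rw [Ne, sum_eq_zero_iff] at hne
    push Not at hne
    obtain ⟨y, _, hne⟩ := hne
    rw [Ne, sum_eq_zero_iff] at hne
    push Not at hne
    obtain ⟨S, hS, hne⟩ := hne
    rw [mem_range] at hS
    have hy0 : 0 < y := by
      by_contra h
      apply hne
      rw [lt01, if_neg h, zero_mul]
    obtain ⟨v, rfl⟩ := Pool.Agent.Helper65.LinSpace.exists_num hy0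
    rw [← Pool.Agent.Helper78.Avg.num_append] at hne
    have hacc : accN (simR eA eN eW ini B0 st (num w) (num (a ++ v)) S) ≠ 0 := by
      intro h
      apply hne
      rw [h, mul_zero]
    have hle := accN_le (simR eA eN eW ini B0 st (num w) (num (a ++ v)) S)
    obtain ⟨t, ht⟩ := (key (a ++ v) S hS).1 (by omega)
    exact ⟨v, t, ht⟩
  · intro y r s hy hs hr hfit hacc
    have hacc1 := (key (a ++ y) s hs).2 r hr hfit hacc
    intro h0
    rw [sum_eq_zero_iff] at h0
    have hy1 : num y ∈ range (2 ^ (c * w.length + 1)) := by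
      rw [mem_range]
      have h4 := Nat.lt_pow_succ_log_self (b := 2) (by norm_num) (num y)
      rw [Pool.Agent.Helper65.LinSpace.log_num] at h4
      exact lt_of_lt_of_le h4 (Nat.pow_le_pow_right (by norm_num) (by omega))
    have h5 := h0 (num y) hy1
    rw [sum_eq_zero_iff] at h5
    have h6 := h5 s (mem_range.2 hs)
    rw [← Pool.Agent.Helper78.Avg.num_append, hacc1, lt01,
      if_pos (Pool.Agent.Helper65.LinSpace.num_pos y)] at h6
    omega

/-- An accepting state is not the empty word. -/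
theorem one_le_of_accepts {A : RAM} {w y : List Bool} {r s : ℕ} (hf : A.Fits w y r s)
    (ha : A.AcceptsAt w y r) : 1 ≤ s := by
  have h1 := (hf r le_rfl).1
  unfold RAM.AcceptsAt at ha
  rcases hq : (A.conf w y r).1 with _ | ⟨b, q⟩
  · rw [hq] at ha
    simp at ha
  · rw [hq] at h1
    simp only [List.length_cons] at h1
    omega

/-- **Average-case hardness for random access machines with advice.** -/
theorem ram_main (P : Parts) (c : ℕ) : ∃ (L : Set (List Bool)) (s : ℕ → List Bool), DLINSPACE L ∧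
    (∀ n, (s n).length = n) ∧
    (∀ w, w ∈ L ↔ Odd ((List.zipWith and (s w.length) w).count true)) ∧
    ∀ (A : RAM) (C : ℝ), ∃ c' : ℝ, ∀ (n : ℕ) (α : List Bool),
      ∀ M, M = L ∨ M = Lᶜ →
        ({w : List Bool | w.length = n ∧
          (∀ v r, A.AcceptsAt w (α ++ v) r → w ∈ M) ∧
          (w ∈ M → ∃ (v : List Bool) (r s : ℕ), v.length ≤ c * n ∧
            (r : ℝ) * s ≤ C * ((n : ℝ) + 1) ^ ((3 : ℝ) / 2) / ((Nat.log 2 n : ℝ) + 1) ^ 2 ∧
            (s : ℝ) ≤ C * ((n : ℝ) + 1) ^ ((1 : ℝ) / 2) / ((Nat.log 2 n : ℝ) + 1) ∧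
            A.Fits w (α ++ v) r s ∧ A.AcceptsAt w (α ++ v) r)}.ncard : ℝ) ≤
        2 ^ n / 2 + c' * ((min α.length (n - α.length) : ℕ) + 1) *
          2 ^ (((n : ℝ) + α.length) / 2) := by
  obtain ⟨L, s, h1, h2, h3, h4⟩ := exists_hard (U := UR c)
    (LS.app3 fun he ha hx => LS.UR P c he ha hx)
  refine ⟨L, s, h1, h2, h3, fun A C => ?_⟩
  obtain ⟨e, n₀, he⟩ := exists_UR P A c
  obtain ⟨n₁, hn₁⟩ := eventually_atTop.1 (par3 C)
  refine ⟨2 ^ (e + 1 + (n₀ + n₁)), fun n α M hM => ?_⟩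
  rcases Nat.lt_or_ge n (n₀ + n₁) with hn | hn
  · exact small_case (e := e) α (fun w hw => hw.1) hn
  · refine large_case α ?_
    have key : {w : List Bool | w.length = n ∧
          (∀ v r, A.AcceptsAt w (α ++ v) r → w ∈ M) ∧
          (w ∈ M → ∃ (v : List Bool) (r s : ℕ), v.length ≤ c * n ∧
            (r : ℝ) * s ≤ C * ((n : ℝ) + 1) ^ ((3 : ℝ) / 2) / ((Nat.log 2 n : ℝ) + 1) ^ 2 ∧
            (s : ℝ) ≤ C * ((n : ℝ) + 1) ^ ((1 : ℝ) / 2) / ((Nat.log 2 n : ℝ) + 1) ∧
            A.Fits w (α ++ v) r s ∧ A.AcceptsAt w (α ++ v) r)} ⊆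
        {w : List Bool | w.length = n ∧ (UR c e (num α) (num w) ≠ 0 ↔ w ∈ M)} := by
      rintro w ⟨hw, hw1, hw2⟩
      obtain ⟨hs, hc⟩ := he w α (by omega)
      refine ⟨hw, fun h => ?_, fun h => ?_⟩
      · obtain ⟨v, r, hacc⟩ := hs h
        exact hw1 v r hacc
      · obtain ⟨v, r, s, hv, hr, hs', hfit, hacc⟩ := hw2 h
        obtain ⟨h5, h6⟩ := hn₁ n (by omega) r s (one_le_of_accepts hfit hacc) hr hs'
        subst hw
        exact hc v r s hv h5 h6 hfit hacc
    refine ncard_le key (fun w hw => hw.1) ?_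
    rcases hM with rfl | rfl
    · exact (h4 e n α).1
    · exact (h4 e n α).2

/-- Languages accepted by fast random access machines are in linear space. -/
theorem ram_lin (P : Parts) (c : ℕ) (A : RAM) (L : Set (List Bool)) (C : ℝ)
    (hA : A.Accepts L (fun n => (c : ℝ) * n)
      (fun n => C * ((n : ℝ) + 1) ^ ((3 : ℝ) / 2) / ((Nat.log 2 n : ℝ) + 1) ^ 2)
      (fun n => C * ((n : ℝ) + 1) ^ ((1 : ℝ) / 2) / ((Nat.log 2 n : ℝ) + 1))) :
    DLINSPACE L := by
  classical
  obtain ⟨e, n₀, he⟩ := exists_UR P A c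
  obtain ⟨n₁, hn₁⟩ := eventually_atTop.1 (par3 C)
  set N := max n₀ n₁ with hN
  have hrun : ∀ w : List Bool, N ≤ w.length → (w ∈ L ↔ UR c e (num []) (num w) ≠ 0) := by
    intro w hw
    obtain ⟨h1, h2⟩ := he w [] ((le_max_left _ _).trans hw)
    constructor
    · intro hwL
      obtain ⟨y, r, s, hy, hr, hs, hfit, hacc⟩ := hA.2 w hwL
      obtain ⟨h5, h6⟩ := hn₁ w.length ((le_max_right _ _).trans hw) r s
        (one_le_of_accepts hfit hacc) hr hs
      refine h2 y r s ?_ h5 h6 hfit hacc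
      have hy' : ((y.length : ℕ) : ℝ) ≤ (c : ℝ) * (w.length : ℝ) := hy
      exact_mod_cast hy'
    · intro h
      obtain ⟨y, r, hacc⟩ := h1 h
      exact hA.1 w y r hacc
  let B : ℕ := tab 2 (2 ^ (N + 1)) fun x => if ∃ w ∈ L, num w = x then 1 else 0
  refine LS.dlinspace (F := fun x => ifz (le01 N (Nat.log 2 x)) (dig 2 B x)
    (UR c e (num []) x)) ?_ L ?_
  · exact LS.ifz (by fun_prop) (by fun_prop) (LS.UR P c (LS.const e) (LS.const _) LS.id)
  · intro w
    by_cases h : N ≤ w.length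
    · have h1 : le01 N (Nat.log 2 (num w)) = 1 := by
        rw [Pool.Agent.Helper65.LinSpace.log_num, le01, if_pos h]
      simp only [h1]
      rw [ifz_ne one_ne_zero]
      exact hrun w h
    · have h1 : le01 N (Nat.log 2 (num w)) = 0 := by
        rw [Pool.Agent.Helper65.LinSpace.log_num, le01, if_neg h]
      simp only [h1]
      rw [ifz_zero]
      have h2 : num w < 2 ^ (N + 1) := by
        have h3 := Nat.lt_pow_succ_log_self (b := 2) (by norm_num) (num w)
        rw [Pool.Agent.Helper65.LinSpace.log_num] at h3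
        exact lt_of_lt_of_le h3 (Nat.pow_le_pow_right (by norm_num) (by omega))
      have h3 : dig 2 B (num w) = if ∃ w' ∈ L, num w' = num w then 1 else 0 := by
        refine dig_tab ?_ h2
        intro i _
        split_ifs <;> norm_num
      rw [h3]
      constructor
      · intro hw
        rw [if_pos ⟨w, hw, rfl⟩]
        exact one_ne_zero
      · intro h4
        by_contra hw
        apply h4
        rw [if_neg]
        rintro ⟨w', hw', h5⟩
        rw [Pool.Agent.Helper78.Avg.num_injective h5] at hw'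
        exact hw hw'

end Pool.Agent.Helper28.Ram
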