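import Pool.Agent.Helper28.Ram.Main
import Pool.Agent.Helper19.Ram.FLAT
import Pool.Agent.Helper67.Ram.LINE
import Pool.Agent.Helper77.Ram.TRUTH
import Pool.Agent.Helper45.Ram.ELEV
import Pool.Agent.Helper31.Ram.NLEV
import Pool.Agent.Helper4.Ram.PROC
import Pool.Agent.Helper33.Ram.REL
import Pool.Agent.Helper90.Ram.LSFN
import Pool.Agent.Helper37.Ram.LSOP
import Pool.Agent.Helper11.Ram.MCOR
import Pool.Agent.Helper59.Ram.MLS
import Pool.Agent.Helper69.Ram.PAR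

/-!
# All parts of the simulation of random access machines
-/

namespace Pool.Agent.Helper28.Ram

theorem parts : Parts where
  FLAT := Pool.Agent.Helper19.Ram.FLAT
  REL := Pool.Agent.Helper33.Ram.REL Pool.Agent.Helper33.Ram.FCAST
  FINAL := Pool.Agent.Helper4.Ram.FINAL
    (Pool.Agent.Helper4.Ram.PROC (Pool.Agent.Helper45.Ram.ELEV Pool.Agent.Helper77.Ram.TOP)
      (Pool.Agent.Helper31.Ram.NLEV Pool.Agent.Helper67.Ram.LINE Pool.Agent.Helper77.Ram.TRUTH))
    Pool.Agent.Helper77.Ram.TOP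
  LSOP := Pool.Agent.Helper37.Ram.LSOP Pool.Agent.Helper90.Ram.LSFN
  MCOR := Pool.Agent.Helper11.Ram.MCOR
  MLS := Pool.Agent.Helper59.Ram.MLS
  PAR1 := Pool.Agent.Helper69.Ram.PAR1
  PAR2 := Pool.Agent.Helper69.Ram.PAR2
  PAR4 := Pool.Agent.Helper69.Ram.PAR4

end Pool.Agent.Helper28.Ram
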