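import Pool.Agent.Helper28.Ram.Mach

/-!
# The space-efficient simulation of a random access machine: the statements of the parts

Every statement comes with its proof in words.
-/

namespace Pool.Agent.Helper28.Ram

open Pool.Agent.Helper65.LinSpace Pool.Agent.Helper78.Mpc Finset Filter

/-! ### Part 1: recursive procedures on arrays are linear-space functions -/

/-- FLAT. Put `T l = ∏ i ∈ range l, cnt i`. (1) Flattening: for all `l` and `s`, `prc … l s` is
`iter (fun τ s => step l τ s) (T l) s`, where `step l τ s = trc Λ (base (chain l τ s))` and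
`chain 0 τ s = s`, `chain (l + 1) τ s = chain l (τ % T l) (if τ % T l = 0 then
trc Λ (op l (τ / T l) s) else s)`. Induction on `l` with `iter_mul` (`T (l + 1) = cnt l * T l`); in the
block `τ = d * T l + i`, `i < T l`, the operation is applied only for `i = 0`; write
`T l = 1 + (T l - 1)` and use `iter_add` and `iter_congr`.
(2) Digits: if `d x < q` for `x < Λ` then `dig q (tab q Λ d) = trc Λ d` as functions (`dig_tab`, and
for `Λ ≤ x` the quotient is `0` by `tab_lt`). Hence with `opS l j S = tab β Λ (op l j (dig β S))` we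
have `dig β (opS l j S) = trc Λ (op l j (dig β S))`, and the numeric iteration
`nrec (tab β Λ s0) (fun τ S => …) (T lv)` codes `prc`. All its values are smaller than
`β ^ Λ ≤ C`. (3) LS: `LS.nrec` for `τ`, inside it `LS.nrec` for the chain (from the level `lv - 1` down
to `0`; at the level `i` the operation is applied if `τ % T i = 0`, with the index
`τ % T (i + 1) / T i`), `LS.tab` for the operations; `T` is in the class by `LS.nrec` with the bound
`C` (all partial products are at most `T lv ≤ C` since `cnt` is positive; for `i > lv` use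
`T (min i lv)`). -/
def FLAT_stmt : Prop := ∀ {α : Type} [Ctx α] {β Λ lv C : α → ℕ} {cnt : α → ℕ → ℕ}
    {base : α → (ℕ → ℕ) → ℕ → ℕ} {op : α → ℕ → ℕ → (ℕ → ℕ) → ℕ → ℕ} {s0 : α → ℕ → ℕ},
    LS β → LS Λ → LS lv → LS C → LS (fun z : α × ℕ => cnt z.1 z.2) →
    LS (fun z : α × ℕ × ℕ => base z.1 (dig (β z.1) z.2.1) z.2.2) →
    LS (fun z : α × ℕ × ℕ × ℕ × ℕ => op z.1 z.2.1 z.2.2.1 (dig (β z.1) z.2.2.2.1) z.2.2.2.2) →
    LS (fun z : α × ℕ => s0 z.1 z.2) →
    (∀ a s x, base a s x < β a) → (∀ a l j s x, op a l j s x < β a) → (∀ a x, s0 a x < β a) →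
    (∀ a, β a ^ Λ a ≤ C a) → (∀ a, ∏ l ∈ range (lv a), cnt a l ≤ C a) → (∀ a l, 0 < cnt a l) →
    LS (fun z : α × ℕ => prc (Λ z.1) (cnt z.1) (base z.1) (op z.1) (lv z.1)
      (trc (Λ z.1) (s0 z.1)) z.2)

/-! ### Part 2: the polynomials -/

/-- LINE. Let `PD d f` mean: `f : ZMod p → ZMod p` is the evaluation of a polynomial of degree at most
`d`. `PD` is closed under sums and differences (maximum of the degrees), finite sums, products (sum
of the degrees), finite products; constants have degree `0` and `x ↦ x * u + v` has degree `1`.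
Consider `f x = m.P p k i a (fun i' o => x * X i' o + V' i' o) o`. Every cell is `PD 1` (also the
constant cells of the region `i` in `fct`), so every `eqc` is `PD σ`; `hr` after `e` steps is
`PD ((e + 1) * σ)` by induction (`hr' = hr + E * (E' - hr)`); the last index in `fct` is
`i * b + r ≤ G * b + b - 1`, so `fct` is `PD ((G + 1) * b * σ + (if r = 0 then σ else 0))` and the
product over `r < b` is `PD (b * ((G + 1) * b * σ) + σ)`. So `f` is
`PD (σ * (b ^ 2 * (G + 1) + 1))`, and `sum_eval_eq` gives `∑_{w < p - 1} f (w + 1) = - f 0`, where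
`f 0 = m.P p k i a V' o`. -/
def LINE_stmt : Prop := ∀ (m : Mach) (p : ℕ) [Fact p.Prime],
    m.σ * (m.b ^ 2 * (m.G + 1) + 1) < p - 1 →
    ∀ (k i a : ℕ) (X V' : ℕ → ℕ → ZMod p) (o : ℕ), i ≤ m.G →
      ∑ w ∈ range (p - 1), m.P p k i a (fun i' o => ((w + 1 : ℕ) : ZMod p) * X i' o + V' i' o) o =
        -m.P p k i a V' o

/-- TRUTH. At the true values the polynomials give the true values. Let `c r = m.nc k i a r` and let
`y₀ = tab (2^σ) (b + 1) d` be the true transcript, `d 0 = (c 0).1` and
`d (r + 1) = (c r).2 (m.nA i a (c r).1)` (all these numbers are smaller than `2^σ`, as the states and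
all register contents of `conf` and `nc` are).
(1) `eqc p σ q (bits of q')` is `1` if `q = q'` and `0` otherwise, for `q, q' < 2^σ` (compare
`fhat_bits` in `LinSpace/CM.lean`).
(2) `(c r)` is `m.conf (k G b + i b + r)` if `i < G`; for `i = G` it is constant.
(3) Let `y < 2^(σ (b+1))` agree with `y₀` in the digits `0, …, r` (`r < b`). Then
`tq i y r' = (c r').1` for `r' ≤ r` and `tw i y r' = m.nW i (c r').1 (…)` for `r' < r`, so the cells of the
regions `i' < i` of the true values together with the cells of `outc i a y` in the region `i` are, for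
the entries `e < i b + r`, the bits of the address and of the written value of the step `e` of the
block (entry `e` = region `e / b`, position `e % b`). So `hr` with the start value `h = [v = content
of x at the start of the block]` is `1` or `0` according to whether `v = (c r).2 x`, by
induction over `e`, for any `x, v < 2^σ`. The start value is right: the cell `2σ + o`, `o < σ`, of
`T k x` is the bit `o` of the content of `x` at the time `k G b`.
(4) So for `y < 2^(σ(b+1))` the product of the factors is `1` if `y = y₀` and `0` otherwise: if `y ≠ y₀`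
take the first digit in which they differ; if it is the digit `0` the factor `fct … 0` is `0`
(for `i = 0` it compares with the cells `o < σ` of `T k _`, the state at the time `k G b`; for `i > 0`
with the cells `o < σ` of `V k (i-1) a`, the state at the time `k G b + i b`); if it is the digit
`r + 1` the factor `fct … r` is `0`. For `y = y₀` all factors are `1`.
(5) So the sum `P` is the term of `y₀`, which is `outc i a y₀ o = V k i a o` (for `wd ≤ o` both are `0`, and
for `o < wd` the position `(o - σ) / (2σ)` is smaller than `b`). -/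
def TRUTH_stmt : Prop := ∀ (m : Mach) (p : ℕ) [Fact p.Prime], m.Ok →
    ∀ (k i a o : ℕ), i ≤ m.G → m.P p k i a (fun i' o => m.V p k i' a o) o = m.V p k i a o

/-- TOP. The machine of the node `G` keeps its configuration, and
`k * (G * b) + G * b = (k + 1) * (G * b)`. -/
def TOP_stmt : Prop := ∀ (m : Mach) (p : ℕ) (k a o : ℕ), m.V p k m.G a o =
    m.T p (k + 1) (a % 2 ^ m.σ) o

/-! ### Part 3: the procedures -/

/-- ELEV (may assume TOP). The evaluation of the polynomials. Put `k = l / (G + 2)`. All operations only set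
mode, node and sign of the level `l` and change `R`, `qa k`, `ac k`, `sv k`, which do not matter
for `Agree (l + 1)` except `R`, since `l = k (G + 2)`. If `s` is not active (`md ≠ 2` or `nd > G`) all
operations are `call l 0 0 0` and the ideal procedure of the level `l` does nothing. Let it be
active, `i = s.nd (l + 1) ≤ G`, `a = s.qa (k + 1)`. The ideal procedure of the level `l`, called with
mode `1`, node `G`, sign `0` or `1` and query `x < 2^σ`, adds `± T k x` to the region `G` (for `l = 0`, `k = 0`
by definition; for `l > 0` it is `V (k - 1) G x = T k x` by TOP, `(l - 1) / (G + 2) = k - 1`,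
`(l - 1) % (G + 2) = G + 1 > G`). `fct` and `P` depend only on the regions `< i` of `X` (in `fct` all
entries `e < i b + r < (i + 1) b` have `e / b ≤ i`, and the region `i` is replaced). For a
fixed `y` the operations `2 r` and `2 r + 1` (`r < b`) and the calls after them leave `R` unchanged in the
end (the region `G` gets `+ T k x` and then `- T k x`, `x = ta i a y r`), and multiply `ac k` (which is
set to `1` at `r = 0`) by `fct i a y r (T k x) R`: at the operation `2 r + 1` the difference
`R G o - sv k o` is `T k x o`. The operation `2 b` subtracts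
`sgn * ∏_r fct … * outc i a y o` from the region `i`; the regions `< i` stay the same for all `y`. Sum over
`y < 2^(σ(b+1))`; `cnt = 2^(σ(b+1)) * (2b+1)`, `iter_mul`. -/
def ELEV_stmt : Prop := ∀ (m : Mach) (p : ℕ) [Fact p.Prime], m.Ok → ∀ (l : ℕ),
    l % (m.G + 2) = 0 → ∀ s : Mach.St p,
      m.Agree (l + 1) (iter (fun j s => m.ideal l (m.op l j s)) (m.cnt p l) s) (m.ideal (l + 1) s)

/-- NLEV (may assume LINE and TRUTH). The evaluation of a node. Put `k = l / (G + 2)` and
`h = l % (G + 2) > 0`; so `l > 0`, `(l - 1) / (G + 2) = k` and `(l - 1) % (G + 2) = h - 1`. If the mode is `2`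
(and `nd ≤ G`) the first operation passes it on, the ideal procedure of the level `l` does the same
as that of the level `l + 1`, and the other operations do nothing. If the mode is `1` and
`i = nd < h`: the round `w` consists of: multiply the regions `< i` by `w + 1`; for `c < i` add `V k c a`
to the region `c` (ideal procedure of the level `l` for the node `c < h - 1`, sign `0`); subtract
`sgn * P k i a R` from the region `i`; for `c < i` subtract `V k c a` from the region `c`; multiply the
regions `< i` by `(w + 1)⁻¹`. (`V k c a` does not depend on `a` for `c < G`; the query is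
`s.qa (k + 1)` in both levels and is never changed.) `P k i a X` depends only on the regions
`< i` of `X`. So a round subtracts `sgn * P k i a ((w + 1) R + V)` from the region `i` and changes nothing
else (`w + 1 ≠ 0` in `ZMod p` for `w < p - 1`), and all rounds together subtract
`sgn * ∑_w P k i a ((w + 1) R + V) = - sgn * P k i a V = - sgn * V k i a`. In all other cases nothing
happens. Compare `rounds_eq` and `iter_exec` in `LinSpace/CM2.lean`. -/
def NLEV_stmt : Prop := ∀ (m : Mach) (p : ℕ) [Fact p.Prime], m.Ok →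
    m.σ * (m.b ^ 2 * (m.G + 1) + 1) < p - 1 → ∀ (l : ℕ), l % (m.G + 2) ≠ 0 → ∀ s : Mach.St p,
      m.Agree (l + 1) (iter (fun j s => m.ideal l (m.op l j s)) (m.cnt p l) s) (m.ideal (l + 1) s)

/-- AGREE. The operations of the level `l + 1` and the ideal procedure of the level `l` read only
those data which are the same in the two states, or overwrite them: mode, node and sign of the level
`l + 1`, `R`, `qa (l / (G + 2) + 1)`, and, only if `l = k (G + 2)`, `ac k` and `sv k`. -/
def AGREE_stmt : Prop := ∀ (m : Mach) (p : ℕ) [Fact p.Prime] (l : ℕ) (s t : Mach.St p),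
    m.Agree l s t → (∀ j, m.Agree l (m.op l j s) (m.op l j t)) ∧
      m.Agree l (m.ideal l s) (m.ideal l t) ∧ m.Agree (l + 1) s t

/-- PROC (may assume ELEV, NLEV, AGREE). Induction on `l`: by induction on `n`,
`Agree l (iter (fun j s => proc l (op l j s)) n s) (iter (fun j s => ideal l (op l j s)) n s)`.
For `l = 0` `op0` and `ideal 0` are the same since
`conf 0 = (q0, M0)`. -/
def PROC_stmt : Prop := ∀ (m : Mach) (p : ℕ) [Fact p.Prime], m.Ok →
    m.σ * (m.b ^ 2 * (m.G + 1) + 1) < p - 1 → ∀ (l : ℕ) (s : Mach.St p),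
      m.Agree l (m.proc l s) (m.ideal l s)

/-- FINAL (may assume PROC and TOP). `K = 0`: `ideal 0`. `K > 0`: the level
`K (G + 2) = l + 1` has `l / (G + 2) = K - 1` and `l % (G + 2) = G + 1`. -/
def FINAL_stmt : Prop := ∀ (m : Mach) (p : ℕ) [Fact p.Prime], m.Ok →
    m.σ * (m.b ^ 2 * (m.G + 1) + 1) < p - 1 → ∀ (K o : ℕ),
      (m.proc (K * (m.G + 2)) (m.s0 p (K * (m.G + 2)))).R m.G o = m.T p K 0 o

/-! ### Part 4: the digits -/

/-- FCAST. The numeric factor is the factor. (`eqN`: each factor is `X o` or `1 - X o` in `ZMod p`; in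
`hN` the values stay smaller than `p`, so `p - r` is a subtraction without truncation, and for
`e < i b + r < (i + 1) b` the index `e / b * wd + o'` with `o' < wd` has quotient `e / b` and remainder
`o'`; `3 σ ≤ wd`.) -/
def FCAST_stmt : Prop := ∀ (m : Mach) (p : ℕ) [Fact p.Prime], m.Ok →
    ∀ (i a y r : ℕ) (D X : ℕ → ℕ) (D' : ℕ → ZMod p) (X' : ℕ → ℕ → ZMod p), r < m.b →
      (∀ o < 3 * m.σ, D o < p ∧ ((D o : ℕ) : ZMod p) = D' o) →
      (∀ i' < i, ∀ o < m.wd, X (i' * m.wd + o) < p ∧
        ((X (i' * m.wd + o) : ℕ) : ZMod p) = X' i' o) →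
      ((m.fN p i a y r D X : ℕ) : ZMod p) = m.fct p i a y r D' X'

/-- REL (may assume FCAST). The operations on digits do the same as the operations on states. By
cases for the kind `x % 7` of the entry; for the registers and accumulators use: a number smaller than
`p` whose cast is `z` is `z.val`. All entries which are read have an index smaller than `7 J`. -/
def REL_stmt : Prop := ∀ (m : Mach) (p : ℕ) [Fact p.Prime], m.Ok → ∀ (J K : ℕ), m.Fit p J K →
    (∀ l < K * (m.G + 2), ∀ (j : ℕ) (a : ℕ → ℕ) (s : Mach.St p), m.Rel J K a s →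
      m.Rel J K (trc (7 * J) (m.opA p l j a)) (m.op l j s)) ∧
    ∀ (a : ℕ → ℕ) (s : Mach.St p), m.Rel J K a s →
      m.Rel J K (trc (7 * J) (m.baseA p a)) (m.op0 s)

/-- LSFN. The numeric factor is computed in linear space. First the transcripts (`LSM`-lemmas for
`nA, nN, nW, tv, tq, ta, tw, cell, outc, topc`; powers `2^σ` by `LS.pow_of_le` with the bound `C`;
`tq` by `LS.nrec` with the bound `C`: all values are smaller than `2^σ`), then `eqN` by `LS.prodMod`, `hN` by
`LS.nrec` with the bound `h + p`. Functions as arguments are treated as in `LS.sum`. -/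
def LSFN_stmt : Prop := ∀ {α : Type} [Ctx α] {m : α → Mach} {C p i a y r : α → ℕ}
    {D X : α → ℕ → ℕ}, LSM m C → LS p → (∀ z, 0 < p z) → LS i → LS a → LS y → LS r →
    LS (fun z : α × ℕ => D z.1 z.2) → LS (fun z : α × ℕ => X z.1 z.2) →
    LS (fun z => (m z).fN (p z) (i z) (a z) (y z) (r z) (D z) (X z)) ∧
    LS (fun z => (m z).outc (i z) (a z) (y z) (r z)) ∧
    LS (fun z => (m z).ta (i z) (a z) (y z) (r z)) ∧
    LS (fun z => (m z).topc (i z) (a z) (y z) (r z))

/-- LSOP (may assume LSFN). The operations on digits are computed in linear space. -/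
def LSOP_stmt : Prop := ∀ {α : Type} [Ctx α] {m : α → Mach} {C p : α → ℕ},
    LSM m C → LS p → (∀ z, 0 < p z) →
    LS (fun z : α × ℕ × ℕ × ℕ × ℕ => (m z.1).opA (p z.1) z.2.1 z.2.2.1
      (dig (p z.1) z.2.2.2.1) z.2.2.2.2) ∧
    LS (fun z : α × ℕ × ℕ => (m z.1).baseA (p z.1) (dig (p z.1) z.2.1) z.2.2)

/-! ### Part 5: the machine on numbers and the parameters -/

/-- MCOR. Let `eA, eN, eW` be the codes of `addr`, `next`, `write` (`fnN_spec`), `st = num A.start`,
`ini, B0` from `exists_ini` (in `Mpc/MMain.lean`), `c` the sum of the constants. `fnN e … (num u)` is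
`num (f u)` if `|f u| ≤ S` and `0` otherwise, for `|u| ≤ 3 S + 1`; `num u - 2 ^ |u| = bval u`. Invariant, by
induction on `t`: the state of `m.conf t` is `0`, or there is a `τ ≤ t` such that the state is
`num (A.conf w y τ).1` with `|…| ≤ S`, the register `j` is `capN S (num ((A.conf w y τ).2 j))` for all
`j`, and `τ = t` or the first letter of the state is `1` (use that `N` and `W` keep the configuration
if `accN q = 1`: `Function.update_eq_self`). This gives the first claim. For the second: if the
machine fits up to `r` then, up to the first `τ ≤ r` with an accepting state, state and registers are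
the numbers of the words of `A`, without failures; afterwards the configuration is kept. -/
def MCOR_stmt : Prop := ∀ A : RAM, ∃ eA eN eW ini B0 st c : ℕ, ∀ (w y : List Bool)
    (S Λ β B g : ℕ), c * (4 * S + 4) ≤ Λ → c + Λ + 4 * S + 2 ≤ β → 2 ^ (S + 1) ≤ B →
    (∀ T, accN ((machN eA eN eW ini B0 st Λ β B (num w) (num y) g S).conf T).1 = 1 →
      ∃ t, A.AcceptsAt w y t) ∧
    ∀ r T, r ≤ T → A.Fits w y r S → A.AcceptsAt w y r →
      accN ((machN eA eN eW ini B0 st Λ β B (num w) (num y) g S).conf T).1 = 1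

/-- MLS. The machines on numbers of the simulation form a family computed in linear space, for all
values of the parameters. (`b = g / (S + 1) ≥ 1` since `S + 1 ≤ g`; use
`beta_pow_le x : (2 ^ (2 * ll (log x))) ^ LW (log x) ≤ CM x` and `CM x ≤ CR x`; `fnN` by `LS.fnN`,
`capN_lt`.) -/
def MLS_stmt : Prop := ∀ {α : Type} [Ctx α] {eA eN eW ini B0 st x y S : α → ℕ},
    LS eA → LS eN → LS eW → LS ini → LS B0 → LS st → LS x → LS y → LS S →
    LSM (fun z => machN (eA z) (eN z) (eW z) (ini z) (B0 z) (st z) (LW (Nat.log 2 (x z)))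
      (2 ^ (2 * ll (Nat.log 2 (x z)))) (CR (x z)) (x z) (y z) (gR (Nat.log 2 (x z)))
      (min (S z) (gR (Nat.log 2 (x z)) - 1))) (fun z => CR (x z))

/-- PAR1. `σ b ≤ g`, `b, σ, g ≤ n + 1`; `wd = 2 σ b + σ ≤ 3 g`. -/
def PAR1_stmt : Prop := ∀ (n S : ℕ) (m : Mach), m.σ = min S (gR n - 1) + 1 → m.G = gR n →
    m.b = gR n / m.σ → m.Fit (pR n) (JR n) (gR n) ∧
      m.σ * (m.b ^ 2 * (m.G + 1) + 1) < pR n - 1

/-- PAR2. `pR n ≤ 2 (n + 2)^4 ≤ 2^(4 ll n + 5)` and `(gR n + 1)^2 ≤ 2 (n / ll n) + 8`, so
`(pR n)^(7 JR n) ≤ 2^(21 * (2 (n / ll n) + 8) * 9 * ll n) ≤ 2^(1890 (n + 1))`. The product has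
`gR n` factors `2^(σ(b+1)) (2b+1) ≤ 2^(4 g)` and `g (g + 1)` factors
`(p - 1) (2g+3) ≤ 2^(5 ll n + 8)`. Finally `two_pow_log_le : 2 ^ (k * (log x + 1)) ≤ (x + 2) ^ (2 k)`. -/
def PAR2_stmt : Prop := ∀ (x S : ℕ) (m : Mach), m.σ = min S (gR (Nat.log 2 x) - 1) + 1 →
    m.G = gR (Nat.log 2 x) → m.b = gR (Nat.log 2 x) / m.σ →
    pR (Nat.log 2 x) ^ (7 * JR (Nat.log 2 x)) ≤ CR x ∧
      ∏ l ∈ range (gR (Nat.log 2 x) * (m.G + 2)), m.cnt (pR (Nat.log 2 x)) l ≤ CR x

/-- PAR3. With `g = gR n ≥ (n / ll n)^(1/2)` and `ll n ≤ (n + 1)^δ` for large `n` (`ev_ll_le`): `s + 1 ≤ g`, so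
`g / (s + 1) ≥ g / (2 (s + 1)) ≥ g / (4 s)` as real numbers, and
`r ≤ C (n + 1)^(3/2 - ε) / s ≤ g^3 / (4 s)`. -/
def PAR3_stmt : Prop := ∀ (C ε : ℝ), 0 < ε → ∀ᶠ n : ℕ in atTop, ∀ r s : ℕ, 1 ≤ s →
    (r : ℝ) * s ≤ C * ((n : ℝ) + 1) ^ (3 / 2 - ε) → (s : ℝ) ≤ C * ((n : ℝ) + 1) ^ (1 / 2 - ε) →
    s < gR n ∧ r ≤ gR n * (gR n * (gR n / (s + 1)))

/-- PAR4. `LW n = n / ll n`, `gR n ≤ (n / ll n)^(1/2) + 1`; compare `ev_cond` in `Mpc/MMain.lean`. -/
def PAR4_stmt : Prop := ∀ c : ℕ, ∀ᶠ n : ℕ in atTop, ∀ S < gR n, c * (4 * S + 4) ≤ LW n ∧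
    c + LW n + 4 * S + 2 ≤ 2 ^ (2 * ll n) ∧ ∀ x, Nat.log 2 x = n → 2 ^ (S + 1) ≤ CR x

end Pool.Agent.Helper28.Ram
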