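import Pool.Agent.Helper78.Mpc.Defs

/-!
# Random access machines: definitions
-/

namespace Pool.Agent.Helper28.Ram

open Pool.Agent.Helper65.LinSpace Pool.Agent.Helper78.Mpc

/-- The number with the binary digits `a` (the least significant digit comes first). -/
def bval : List Bool → ℕ
  | [] => 0
  | b :: a => b.toNat + 2 * bval a

/-- A random access machine. Its state is a word and its registers `0, 1, 2, …` contain words. At
the start the register `j` contains a word which depends on the `j`-th letters of the input word and
of the guessed word. In one step the machine in the state `q` reads the content `v` of the register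
whose index is written in binary as `addr q`, replaces it by `write (⟨q⟩ v)` and goes into the state
`next (⟨q⟩ v)`; here `⟨q⟩` is the self-delimiting code of `q`. The functions `addr`, `next` and
`write` are computed in linear space. -/
structure RAM where
  start : List Bool
  init : Option Bool → Option Bool → List Bool
  addr : List Bool → List Bool
  next : List Bool → List Bool
  write : List Bool → List Bool
  addr_lin : LinComp addr
  next_lin : LinComp next
  write_lin : LinComp write

/-- The state and the contents of the registers after `t` steps on the input word `w` and the
guessed word `y`. -/
def RAM.conf (A : RAM) (w y : List Bool) : ℕ → List Bool × (ℕ → List Bool)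
  | 0 => (A.start, fun j => A.init w[j]? y[j]?)
  | t + 1 =>
    let q := (A.conf w y t).1
    let M := (A.conf w y t).2
    let a := bval (A.addr q)
    (A.next (sd q ++ M a), Function.update M a (A.write (sd q ++ M a)))

/-- Up to the time `r`, the state, the address and the contents of all registers are words of length
at most `s`. -/
def RAM.Fits (A : RAM) (w y : List Bool) (r s : ℕ) : Prop :=
  ∀ t ≤ r, (A.conf w y t).1.length ≤ s ∧ (A.addr (A.conf w y t).1).length ≤ s ∧
    ∀ j, ((A.conf w y t).2 j).length ≤ s

/-- The first letter of the state after `r` steps is `1`. -/
def RAM.AcceptsAt (A : RAM) (w y : List Bool) (r : ℕ) : Prop :=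
  (A.conf w y r).1.head? = some true

/-- `A` accepts the language `L` with at most `g n` guessed bits, with words of length at most `Q n`
and with a product of the running time and the length of the words of at most `P n`, `n` being the
length of the input word `w`: `w` is in `L` if and only if for some guess `y` the machine accepts at
some time, and for `w` in `L` this happens within the stated bounds for some `y`. -/
def RAM.Accepts (A : RAM) (L : Set (List Bool)) (g P Q : ℕ → ℝ) : Prop :=
  (∀ w y r, A.AcceptsAt w y r → w ∈ L) ∧
  ∀ w ∈ L, ∃ (y : List Bool) (r s : ℕ), (y.length : ℝ) ≤ g w.length ∧
    (r : ℝ) * s ≤ P w.length ∧ (s : ℝ) ≤ Q w.length ∧ A.Fits w y r s ∧ A.AcceptsAt w y r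

end Pool.Agent.Helper28.Ram
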