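import Pool.Agent.Helper28.Ram.Num
import Pool.Agent.Helper28.Ram.Defs
import Pool.Agent.Helper78.Mpc.MParam

/-!
# The machine on numbers of a random access machine, and the parameters
-/

namespace Pool.Agent.Helper28.Ram

open Pool.Agent.Helper65.LinSpace Pool.Agent.Helper78.Mpc Finset

/-- The machine on numbers of a random access machine with the codes `eA`, `eN`, `eW` of its
functions. Words of length at most `S` are coded by their numbers, and `0` is the state after a
failure (a word was too long). A state whose first letter is `1` is kept forever. -/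
def machN (eA eN eW ini B0 st Λ β B x y g S : ℕ) : Mach where
  σ := S + 1
  b := g / (S + 1)
  G := g
  A q := capN S (fnN eA S Λ β B q) - 2 ^ Nat.log 2 (capN S (fnN eA S Λ β B q))
  N q v := capN S (ifz (accN q)
    (ifz (fnN eA S Λ β B q * (v * fnN eW S Λ β B (catN (sdN q) v))) 0
      (fnN eN S Λ β B (catN (sdN q) v))) q)
  W q v := capN S (ifz (accN q) (fnN eW S Λ β B (catN (sdN q) v)) v)
  q0 := capN S st
  M0 a := capN S (dig B0 ini (3 * letN x a + letN y a))

/-- The number of sub-blocks of a block, and the number of blocks. -/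
def gR (n : ℕ) : ℕ := Nat.sqrt (n / ll n) + 1

/-- The prime. -/
noncomputable def pR (n : ℕ) : ℕ := nextPrime ((n + 2) ^ 4)

/-- The number of digits of each kind. -/
def JR (n : ℕ) : ℕ := 3 * ((gR n + 1) * (gR n + 1))

/-- The bound for all numbers. -/
def CR (x : ℕ) : ℕ := (x + 2) ^ 8000

/-- The state after `gR n * (gR n * (gR n / (S + 1)))` steps with words of length at most `S`, if
`S < gR n`. -/
noncomputable def simR (eA eN eW ini B0 st x y S : ℕ) : ℕ :=
  (machN eA eN eW ini B0 st (LW (Nat.log 2 x)) (2 ^ (2 * ll (Nat.log 2 x))) (CR x) x y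
    (gR (Nat.log 2 x)) (min S (gR (Nat.log 2 x) - 1))).sim
    (pR (Nat.log 2 x)) (JR (Nat.log 2 x)) (gR (Nat.log 2 x))

end Pool.Agent.Helper28.Ram
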