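import Pool.Agent.Helper28.Ram.Alg

/-!
# The space-efficient simulation of a random access machine: the algorithm on digits

An array `a : ℕ → ℕ` of digits codes a state of the simulation: the entry `7 k + c` is, for
`c = 0, …, 6`, the register `k` (cell `k % wd` of the region `k / wd`), the mode, the node and the
sign of the level `k`, the bit `k % σ` of the query of the block `k / σ`, the accumulator of the
block `k`, and the cell `k % (3 σ)` of the saved region of the block `k / (3 σ)`.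
-/

namespace Pool.Agent.Helper28.Ram

open Pool.Agent.Helper65.LinSpace Finset

/-! ### Recursive procedures on arrays -/

/-- The first `Λ` entries, followed by zeros. -/
def trc (Λ : ℕ) (s : ℕ → ℕ) : ℕ → ℕ := fun x => if x < Λ then s x else 0

/-- The procedure of the level `l + 1` repeats `cnt l` times: the operation `op l j`, then the
procedure of the level `l`. -/
def prc (Λ : ℕ) (cnt : ℕ → ℕ) (base : (ℕ → ℕ) → ℕ → ℕ) (op : ℕ → ℕ → (ℕ → ℕ) → ℕ → ℕ) :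
    ℕ → (ℕ → ℕ) → ℕ → ℕ
  | 0, s => trc Λ (base s)
  | l + 1, s => iter (fun j s => prc Λ cnt base op l (trc Λ (op l j s))) (cnt l) s

/-! ### Polynomials -/

/-- Equality of the bits of `q` and the cells `X`, modulo `p`. -/
def eqN (p σ q : ℕ) (X : ℕ → ℕ) : ℕ :=
  (∏ o ∈ range σ, ifz (dig 2 q o) (p + 1 - X o) (X o)) % p

namespace Mach

variable (m : Mach)

/-- Equality of `v` and the content of the register `a` after `n` steps of the block. -/
def hN (p a v h : ℕ) (X : ℕ → ℕ) (n : ℕ) : ℕ :=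
  nrec h (fun e r => (r + eqN p m.σ a (fun o => X (e / m.b * m.wd + (m.σ + 2 * m.σ * (e % m.b) + o)))
    * (eqN p m.σ v (fun o => X (e / m.b * m.wd + (m.σ + 2 * m.σ * (e % m.b) + m.σ + o))) +
      (p - r))) % p) n

/-- The factor of the step `r` of the transcript `y`. -/
def fN (p i a y r : ℕ) (D X : ℕ → ℕ) : ℕ :=
  (ifz r (eqN p m.σ (dig (2 ^ m.σ) y 0) (fun o => ifz i (D o) (X ((i - 1) * m.wd + o)))) 1 *
    m.hN p (m.ta i a y r) (m.tv y r) (eqN p m.σ (m.tv y r) fun o => D (2 * m.σ + o))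
      (fun x => ifz (eq01 (x / m.wd) i) (X x) (m.outc i a y (x % m.wd))) (i * m.b + r)) % p

/-! ### The operations -/

/-- The query of the block `t`. -/
def qN (a : ℕ → ℕ) (t : ℕ) : ℕ := tab 2 m.σ fun o => a (7 * (t * m.σ + o) + 4)

/-- `1` if the level `l + 1` evaluates polynomials. -/
def isE (a : ℕ → ℕ) (l : ℕ) : ℕ :=
  eq01 (l % (m.G + 2)) 0 * (eq01 (a (7 * (l + 1) + 1)) 2 * le01 (a (7 * (l + 1) + 2)) m.G)

/-- `1` if the level `l + 1` evaluates a node. -/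
def isN (a : ℕ → ℕ) (l : ℕ) : ℕ :=
  lt01 0 (l % (m.G + 2)) *
    (eq01 (a (7 * (l + 1) + 1)) 1 * lt01 (a (7 * (l + 1) + 2)) (l % (m.G + 2)))

/-- `1` if the level `l + 1` passes on the evaluation of polynomials. -/
def isP (a : ℕ → ℕ) (l j : ℕ) : ℕ :=
  lt01 0 (l % (m.G + 2)) *
    (eq01 (a (7 * (l + 1) + 1)) 2 * le01 (a (7 * (l + 1) + 2)) m.G * eq01 j 0)

/-- The new register `k`. -/
def nR (p l j : ℕ) (a : ℕ → ℕ) (k : ℕ) : ℕ :=
  ifz (m.isE a l)
    (ifz (m.isN a l * lt01 (k / m.wd) (a (7 * (l + 1) + 2)))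
      (a (7 * k))
      (ifz (j % (2 * m.G + 3))
        ((j / (2 * m.G + 3) + 1) * a (7 * k) % p)
        (ifz (eq01 (j % (2 * m.G + 3)) (2 * m.G + 2)) (a (7 * k))
          (invN p (j / (2 * m.G + 3) + 1) * a (7 * k) % p))))
    (ifz (eq01 (j % (2 * m.b + 1)) (2 * m.b) * eq01 (k / m.wd) (a (7 * (l + 1) + 2)))
      (a (7 * k))
      ((a (7 * k) + ifz (a (7 * (l + 1) + 3)) (p - 1) 1 * (a (7 * (l / (m.G + 2)) + 5) *
        m.outc (a (7 * (l + 1) + 2)) (m.qN a (l / (m.G + 2) + 1)) (j / (2 * m.b + 1))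
          (k % m.wd))) % p))

/-- The new mode of the level `l`. -/
def cMd (l j : ℕ) (a : ℕ → ℕ) : ℕ :=
  ifz (m.isE a l)
    (ifz (m.isN a l)
      (ifz (m.isP a l j) 0 2)
      (ifz (j % (2 * m.G + 3)) 0
        (ifz (le01 (j % (2 * m.G + 3)) m.G)
          (ifz (eq01 (j % (2 * m.G + 3)) (m.G + 1))
            (ifz (le01 (j % (2 * m.G + 3)) (2 * m.G + 1)) 0
              (lt01 (j % (2 * m.G + 3) - (m.G + 2)) (a (7 * (l + 1) + 2))))
            2)
          (lt01 (j % (2 * m.G + 3) - 1) (a (7 * (l + 1) + 2))))))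
    (ifz (eq01 (j % (2 * m.b + 1)) (2 * m.b)) 1 0)

/-- The new node of the level `l`. -/
def cNd (l j : ℕ) (a : ℕ → ℕ) : ℕ :=
  ifz (m.isE a l)
    (ifz (m.isN a l)
      (ifz (m.isP a l j) 0 (a (7 * (l + 1) + 2)))
      (ifz (j % (2 * m.G + 3)) 0
        (ifz (le01 (j % (2 * m.G + 3)) m.G)
          (ifz (eq01 (j % (2 * m.G + 3)) (m.G + 1))
            (ifz (le01 (j % (2 * m.G + 3)) (2 * m.G + 1)) 0
              (lt01 (j % (2 * m.G + 3) - (m.G + 2)) (a (7 * (l + 1) + 2)) *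
                (j % (2 * m.G + 3) - (m.G + 2))))
            (a (7 * (l + 1) + 2)))
          (lt01 (j % (2 * m.G + 3) - 1) (a (7 * (l + 1) + 2)) * (j % (2 * m.G + 3) - 1)))))
    (ifz (eq01 (j % (2 * m.b + 1)) (2 * m.b)) m.G 0)

/-- The new sign of the level `l`. -/
def cSg (l j : ℕ) (a : ℕ → ℕ) : ℕ :=
  ifz (m.isE a l)
    (ifz (m.isN a l)
      (ifz (m.isP a l j) 0 (a (7 * (l + 1) + 3)))
      (ifz (j % (2 * m.G + 3)) 0
        (ifz (le01 (j % (2 * m.G + 3)) m.G)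
          (ifz (eq01 (j % (2 * m.G + 3)) (m.G + 1))
            (ifz (le01 (j % (2 * m.G + 3)) (2 * m.G + 1)) 0
              (lt01 (j % (2 * m.G + 3) - (m.G + 2)) (a (7 * (l + 1) + 2))))
            (a (7 * (l + 1) + 3)))
          0)))
    (ifz (eq01 (j % (2 * m.b + 1)) (2 * m.b)) (j % (2 * m.b + 1) % 2) 0)

/-- `1` if the level `l + 1` starts a query in the operation `j`. -/
def isQ (a : ℕ → ℕ) (l j : ℕ) : ℕ :=
  m.isE a l * (lt01 (j % (2 * m.b + 1)) (2 * m.b) * eq01 (j % (2 * m.b + 1) % 2) 0)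

/-- `1` if the level `l + 1` ends a query in the operation `j`. -/
def isF (a : ℕ → ℕ) (l j : ℕ) : ℕ :=
  m.isE a l * eq01 (j % (2 * m.b + 1) % 2) 1

/-- The new bit `k` of the queries. -/
def nQ (l j : ℕ) (a : ℕ → ℕ) (k : ℕ) : ℕ :=
  ifz (m.isQ a l j * eq01 (k / m.σ) (l / (m.G + 2)))
    (a (7 * k + 4))
    (dig 2 (m.ta (a (7 * (l + 1) + 2)) (m.qN a (l / (m.G + 2) + 1)) (j / (2 * m.b + 1))
      (j % (2 * m.b + 1) / 2)) (k % m.σ))

/-- The new accumulator `k`. -/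
def nAc (p l j : ℕ) (a : ℕ → ℕ) (k : ℕ) : ℕ :=
  ifz (eq01 k (l / (m.G + 2))) (a (7 * k + 5))
    (ifz (m.isQ a l j)
      (ifz (m.isF a l j) (a (7 * k + 5))
        (a (7 * k + 5) * m.fN p (a (7 * (l + 1) + 2)) (m.qN a (l / (m.G + 2) + 1))
          (j / (2 * m.b + 1)) (j % (2 * m.b + 1) / 2)
          (fun o => (a (7 * (m.G * m.wd + o)) + (p - a (7 * (k * (3 * m.σ) + o) + 6))) % p)
          (fun x => a (7 * x)) % p))
      (ifz (j % (2 * m.b + 1)) 1 (a (7 * k + 5))))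

/-- The new cell `k` of the saved regions. -/
def nSv (l j : ℕ) (a : ℕ → ℕ) (k : ℕ) : ℕ :=
  ifz (m.isQ a l j * eq01 (k / (3 * m.σ)) (l / (m.G + 2)))
    (a (7 * k + 6))
    (a (7 * (m.G * m.wd + k % (3 * m.σ))))

/-- The operation `j` of the level `l + 1`. -/
def opA (p l j : ℕ) (a : ℕ → ℕ) (x : ℕ) : ℕ :=
  ifz (x % 7) (m.nR p l j a (x / 7))
    (ifz (x % 7 - 1) (ifz (eq01 (x / 7) l) (a x) (m.cMd l j a))
      (ifz (x % 7 - 2) (ifz (eq01 (x / 7) l) (a x) (m.cNd l j a))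
        (ifz (x % 7 - 3) (ifz (eq01 (x / 7) l) (a x) (m.cSg l j a))
          (ifz (x % 7 - 4) (m.nQ l j a (x / 7))
            (ifz (x % 7 - 5) (m.nAc p l j a (x / 7)) (m.nSv l j a (x / 7))))))) % p

/-- The operation of the level `0`. -/
def baseA (p : ℕ) (a : ℕ → ℕ) (x : ℕ) : ℕ :=
  (a x + eq01 (a 1) 1 * (eq01 (x % 7) 0 * eq01 (x / 7 / m.wd) m.G) *
    (ifz (a 3) 1 (p - 1) * m.topc m.q0 (m.qN a 0) (m.M0 (m.qN a 0)) (x / 7 % m.wd))) % p

/-- The initial array. -/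
def initA (K x : ℕ) : ℕ :=
  ifz (eq01 x (7 * (K * (m.G + 2)) + 1)) (ifz (eq01 x (7 * (K * (m.G + 2)) + 2)) 0 m.G) 1

/-- The state after `K * (G * b)` steps. -/
def sim (p J K : ℕ) : ℕ :=
  tab 2 m.σ fun o => prc (7 * J) (m.cnt p) (m.baseA p) (m.opA p) (K * (m.G + 2))
    (trc (7 * J) (m.initA K)) (7 * (m.G * m.wd + o)) % 2

variable {p : ℕ}

/-- The code of a state of the simulation. -/
def enc (s : St p) (x : ℕ) : ℕ :=
  if x % 7 = 0 then (s.R (x / 7 / m.wd) (x / 7 % m.wd)).val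
  else if x % 7 = 1 then s.md (x / 7)
  else if x % 7 = 2 then s.nd (x / 7)
  else if x % 7 = 3 then s.sg (x / 7)
  else if x % 7 = 4 then dig 2 (s.qa (x / 7 / m.σ)) (x / 7 % m.σ)
  else if x % 7 = 5 then (s.ac (x / 7)).val
  else (s.sv (x / 7 / (3 * m.σ)) (x / 7 % (3 * m.σ))).val

/-- The array `a` codes the state `s`. -/
def Rel (J K : ℕ) (a : ℕ → ℕ) (s : St p) : Prop :=
  (∀ x < 7 * J, a x = m.enc s x ∧ a x < p) ∧ ∀ t ≤ K, s.qa t < 2 ^ m.σ

variable (p) in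
/-- The prime and the arrays are large enough. -/
structure Fit (J K : ℕ) : Prop where
  h1 : (m.G + 1) * m.wd ≤ J
  h2 : K * (m.G + 2) < J
  h3 : (K + 1) * (3 * m.σ) ≤ J
  h4 : m.G < p
  h5 : 2 < p

end Mach

/-- A family of machines whose parameters and functions are computed in linear space. -/
structure LSM {α : Type} [Ctx α] (m : α → Mach) (C : α → ℕ) : Prop where
  σ : LS (fun z => (m z).σ)
  b : LS (fun z => (m z).b)
  G : LS (fun z => (m z).G)
  A : LS (fun z : α × ℕ => (m z.1).A z.2)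
  N : LS (fun z : α × ℕ × ℕ => (m z.1).N z.2.1 z.2.2)
  W : LS (fun z : α × ℕ × ℕ => (m z.1).W z.2.1 z.2.2)
  q0 : LS (fun z => (m z).q0)
  M0 : LS (fun z : α × ℕ => (m z.1).M0 z.2)
  bd : LS C
  ok : ∀ z, (m z).Ok
  hC : ∀ z, 2 ^ (m z).σ ≤ C z

end Pool.Agent.Helper28.Ram
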