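import Pool.Agent.Helper65.LinSpace.Tree

/-!
# The space-efficient simulation of a random access machine: the algorithm

The machine works on numbers smaller than `2 ^ σ`. Time is divided into blocks of `G * b` steps, a
block into `G` sub-blocks of `b` steps. The registers are elements of `ZMod p`; the region `i` has a
cell for each bit of the output of the node `i`: the state after the sub-block `i` (the first `σ`
cells) and for each of its steps the address (`σ` cells) and the written value (`σ` cells). The node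
`G` belongs to a query `a`; it is a sub-block in which the machine keeps its state and reads the
register `a` again and again.
-/

namespace Pool.Agent.Helper28.Ram

open Pool.Agent.Helper65.LinSpace Finset

/-- The configuration after `t` steps: the state and the memory. -/
def cf (A : ℕ → ℕ) (N W : ℕ → ℕ → ℕ) (q : ℕ) (M : ℕ → ℕ) : ℕ → ℕ × (ℕ → ℕ)
  | 0 => (q, M)
  | t + 1 =>
    (N (cf A N W q M t).1 ((cf A N W q M t).2 (A (cf A N W q M t).1)),
      Function.update (cf A N W q M t).2 (A (cf A N W q M t).1)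
        (W (cf A N W q M t).1 ((cf A N W q M t).2 (A (cf A N W q M t).1))))

/-- A random access machine on numbers, and the parameters of the simulation. -/
structure Mach where
  σ : ℕ
  b : ℕ
  G : ℕ
  A : ℕ → ℕ
  N : ℕ → ℕ → ℕ
  W : ℕ → ℕ → ℕ
  q0 : ℕ
  M0 : ℕ → ℕ

/-- All numbers have `σ` bits. -/
structure Mach.Ok (m : Mach) : Prop where
  hσ : 0 < m.σ
  hb : 0 < m.b
  hA : ∀ q, m.A q < 2 ^ m.σ
  hN : ∀ q v, m.N q v < 2 ^ m.σ
  hW : ∀ q v, m.W q v < 2 ^ m.σ
  hq0 : m.q0 < 2 ^ m.σ
  hM0 : ∀ a, m.M0 a < 2 ^ m.σ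

namespace Mach

variable (m : Mach)

/-- The configuration of the machine at the time `t`. -/
def conf (t : ℕ) : ℕ × (ℕ → ℕ) := cf m.A m.N m.W m.q0 m.M0 t

/-- The machine of the node `i`; the node `G` reads the address `a` (reduced to `σ` bits). -/
def nA (i a q : ℕ) : ℕ := ifz (eq01 i m.G) (m.A q) (a % 2 ^ m.σ)

/-- The machine of the node `i`. -/
def nN (i q v : ℕ) : ℕ := ifz (eq01 i m.G) (m.N q v) q

/-- The machine of the node `i`. -/
def nW (i q v : ℕ) : ℕ := ifz (eq01 i m.G) (m.W q v) v

/-! ### Transcripts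

A transcript `y` of a node consists of the state at the start and of `b` values which are read. -/

/-- The value read in the step `r`. -/
def tv (y r : ℕ) : ℕ := dig (2 ^ m.σ) y (r + 1)

/-- The state after `r` steps. -/
def tq (i y r : ℕ) : ℕ := nrec (dig (2 ^ m.σ) y 0) (fun r q => m.nN i q (m.tv y r)) r

/-- The address in the step `r`. -/
def ta (i a y r : ℕ) : ℕ := m.nA i a (m.tq i y r)

/-- The value written in the step `r`. -/
def tw (i y r : ℕ) : ℕ := m.nW i (m.tq i y r) (m.tv y r)

/-- The number of cells of a region. -/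
def wd : ℕ := m.σ * (2 * m.b + 1)

/-- The output bits, `q`, `f`, `g` being the last state, the addresses and the written values. -/
def cell (q : ℕ) (f g : ℕ → ℕ) (o : ℕ) : ℕ :=
  lt01 o m.wd * ifz (lt01 o m.σ)
    (ifz (lt01 ((o - m.σ) % (2 * m.σ)) m.σ)
      (dig 2 (g ((o - m.σ) / (2 * m.σ))) ((o - m.σ) % (2 * m.σ) - m.σ))
      (dig 2 (f ((o - m.σ) / (2 * m.σ))) ((o - m.σ) % (2 * m.σ))))
    (dig 2 q o)

/-- The output bits of the transcript `y`. -/
def outc (i a y o : ℕ) : ℕ := m.cell (m.tq i y m.b) (m.ta i a y) (m.tw i y) o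

/-- The output bits of the node `G` for the state `q` and the content `v` of the register `a`. -/
def topc (q a v o : ℕ) : ℕ := m.cell q (fun _ => a) (fun _ => v) o

/-! ### Polynomials -/

section

variable (p : ℕ)

/-- Equality of the bits of `q` and the cells `X`. -/
def eqc (σ q : ℕ) (X : ℕ → ZMod p) : ZMod p :=
  ∏ o ∈ range σ, (if dig 2 q o = 1 then X o else 1 - X o)

/-- Equality of `v` and the content of the register `a` after `n` steps of the block, `h` being the
equality at the start of the block and `X` the regions. -/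
def hr (a v : ℕ) (h : ZMod p) (X : ℕ → ℕ → ZMod p) : ℕ → ZMod p
  | 0 => h
  | e + 1 => hr a v h X e + eqc p m.σ a (fun o => X (e / m.b) (m.σ + 2 * m.σ * (e % m.b) + o)) *
      (eqc p m.σ v (fun o => X (e / m.b) (m.σ + 2 * m.σ * (e % m.b) + m.σ + o)) - hr a v h X e)

/-- The factor which compares the step `r` of the transcript `y` with the truth; `D` contains the
output bits of the node `G` of the preceding block for the query `m.ta i a y r`. -/
def fct (i a y r : ℕ) (D : ℕ → ZMod p) (X : ℕ → ℕ → ZMod p) : ZMod p :=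
  (if r = 0 then eqc p m.σ (dig (2 ^ m.σ) y 0) (if i = 0 then D else X (i - 1)) else 1) *
  m.hr p (m.ta i a y r) (m.tv y r) (eqc p m.σ (m.tv y r) fun o => D (2 * m.σ + o))
    (fun i' o => if i' = i then ((m.outc i a y o : ℕ) : ZMod p) else X i' o) (i * m.b + r)

/-- The output bits of a query `a` at the start of the block `k`. -/
def T (k a o : ℕ) : ZMod p :=
  ((m.topc (m.conf (k * (m.G * m.b))).1 a ((m.conf (k * (m.G * m.b))).2 a) o : ℕ) : ZMod p)

/-- The polynomials of the node `i` of the block `k` for the query `a`. -/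
def P (k i a : ℕ) (X : ℕ → ℕ → ZMod p) (o : ℕ) : ZMod p :=
  ∑ y ∈ range (2 ^ (m.σ * (m.b + 1))),
    (∏ r ∈ range m.b, m.fct p i a y r (m.T p k (m.ta i a y r)) X) *
      ((m.outc i a y o : ℕ) : ZMod p)

/-- The configuration after `r` steps of the sub-block `i` of the block `k`. -/
def nc (k i a r : ℕ) : ℕ × (ℕ → ℕ) :=
  cf (m.nA i a) (m.nN i) (m.nW i) (m.conf (k * (m.G * m.b) + i * m.b)).1
    (m.conf (k * (m.G * m.b) + i * m.b)).2 r

/-- The value of the node `i` of the block `k` for the query `a`. -/
def V (k i a o : ℕ) : ZMod p :=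
  ((m.cell (m.nc k i a m.b).1 (fun r => m.nA i a (m.nc k i a r).1)
    (fun r => m.nW i (m.nc k i a r).1 ((m.nc k i a r).2 (m.nA i a (m.nc k i a r).1))) o : ℕ) :
      ZMod p)

/-! ### The procedures -/

/-- The states of the simulation: registers; mode, node and sign of each level; query, accumulator
and saved region of each block. -/
structure St where
  R : ℕ → ℕ → ZMod p
  md : ℕ → ℕ
  nd : ℕ → ℕ
  sg : ℕ → ℕ
  qa : ℕ → ℕ
  ac : ℕ → ZMod p
  sv : ℕ → ℕ → ZMod p

variable {p} in
/-- Set mode, node and sign of the level `l`. -/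
def St.call (s : St p) (l c i g : ℕ) : St p :=
  { s with
    md := Function.update s.md l c
    nd := Function.update s.nd l i
    sg := Function.update s.sg l g }

variable {p} in
/-- Add `c` to the region `i`. -/
def addR (i : ℕ) (c : ℕ → ZMod p) (R : ℕ → ℕ → ZMod p) : ℕ → ℕ → ZMod p :=
  fun i' o => if i' = i then R i' o + c o else R i' o

variable {p} in
/-- Multiply the regions before `i` by `c`. -/
def scaR (i : ℕ) (c : ZMod p) (R : ℕ → ℕ → ZMod p) : ℕ → ℕ → ZMod p :=
  fun i' o => if i' < i then c * R i' o else R i' o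

/-- The sign. -/
def sgz (s : ℕ) : ZMod p := if s = 0 then 1 else -1

variable {p}

/-- The level `0`: the query at the start of the computation. -/
def op0 (s : St p) : St p :=
  if s.md 0 = 1 then
    { s with R := addR m.G (fun o => sgz p (s.sg 0) *
        ((m.topc m.q0 (s.qa 0) (m.M0 (s.qa 0)) o : ℕ) : ZMod p)) s.R }
  else s

/-- The evaluation of the polynomials: the operation `j` of the level `l + 1`, which belongs to the
block `k`. -/
def opE (l k j : ℕ) (s : St p) : St p :=
  if s.md (l + 1) = 2 ∧ s.nd (l + 1) ≤ m.G then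
    if j % (2 * m.b + 1) = 2 * m.b then
      ({ s with R := addR (s.nd (l + 1)) (fun o => -(sgz p (s.sg (l + 1)) * (s.ac k *
          ((m.outc (s.nd (l + 1)) (s.qa (k + 1)) (j / (2 * m.b + 1)) o : ℕ) : ZMod p)))) s.R } :
        St p).call l 0 0 0
    else if j % (2 * m.b + 1) % 2 = 0 then
      ({ s with
          ac := Function.update s.ac k (if j % (2 * m.b + 1) = 0 then 1 else s.ac k)
          sv := Function.update s.sv k (s.R m.G)
          qa := Function.update s.qa k (m.ta (s.nd (l + 1)) (s.qa (k + 1)) (j / (2 * m.b + 1))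
            (j % (2 * m.b + 1) / 2)) } : St p).call l 1 m.G 0
    else
      ({ s with
          ac := Function.update s.ac k (s.ac k * m.fct p (s.nd (l + 1)) (s.qa (k + 1))
            (j / (2 * m.b + 1)) (j % (2 * m.b + 1) / 2) (fun o => s.R m.G o - s.sv k o) s.R) } :
        St p).call l 1 m.G 1
  else s.call l 0 0 0

/-- The evaluation of the nodes before `h`: the operation `j` of the level `l + 1`. -/
def opN (l h j : ℕ) (s : St p) : St p :=
  if s.md (l + 1) = 1 ∧ s.nd (l + 1) < h then
    if j % (2 * m.G + 3) = 0 then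
      ({ s with R := scaR (s.nd (l + 1)) ((j / (2 * m.G + 3) + 1 : ℕ) : ZMod p) s.R } :
        St p).call l 0 0 0
    else if j % (2 * m.G + 3) ≤ m.G then
      if j % (2 * m.G + 3) - 1 < s.nd (l + 1) then s.call l 1 (j % (2 * m.G + 3) - 1) 0
      else s.call l 0 0 0
    else if j % (2 * m.G + 3) = m.G + 1 then s.call l 2 (s.nd (l + 1)) (s.sg (l + 1))
    else if j % (2 * m.G + 3) ≤ 2 * m.G + 1 then
      if j % (2 * m.G + 3) - (m.G + 2) < s.nd (l + 1) then
        s.call l 1 (j % (2 * m.G + 3) - (m.G + 2)) 1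
      else s.call l 0 0 0
    else
      ({ s with R := scaR (s.nd (l + 1)) ((j / (2 * m.G + 3) + 1 : ℕ) : ZMod p)⁻¹ s.R } :
        St p).call l 0 0 0
  else if s.md (l + 1) = 2 ∧ s.nd (l + 1) ≤ m.G ∧ j = 0 then
    s.call l 2 (s.nd (l + 1)) (s.sg (l + 1))
  else s.call l 0 0 0

/-- The operation `j` of the level `l + 1`. -/
def op (l j : ℕ) (s : St p) : St p :=
  if l % (m.G + 2) = 0 then m.opE l (l / (m.G + 2)) j s else m.opN l (l % (m.G + 2)) j s

variable (p) in
/-- The number of operations of the level `l + 1`. -/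
def cnt (l : ℕ) : ℕ :=
  ifz (l % (m.G + 2)) (2 ^ (m.σ * (m.b + 1)) * (2 * m.b + 1)) ((p - 1) * (2 * m.G + 3))

/-- The procedure of the level `l`. -/
def proc : ℕ → St p → St p
  | 0, s => m.op0 s
  | l + 1, s => iter (fun j s => proc l (m.op l j s)) (m.cnt p l) s

variable (p) in
/-- The state with an active call of the node `G` in the level `l`, and zeros elsewhere. -/
def s0 (l : ℕ) : St p :=
  ({ R := fun _ _ => 0, md := fun _ => 0, nd := fun _ => 0, sg := fun _ => 0, qa := fun _ => 0,
     ac := fun _ => 0, sv := fun _ _ => 0 } : St p).call l 1 m.G 0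

/-- What the procedure of the level `l` does. -/
def ideal : ℕ → St p → St p
  | 0, s =>
    if s.md 0 = 1 then
      { s with R := addR m.G (fun o => sgz p (s.sg 0) * m.T p 0 (s.qa 0) o) s.R }
    else s
  | l + 1, s =>
    if s.md (l + 1) = 2 ∧ s.nd (l + 1) ≤ m.G then
      { s with R := addR (s.nd (l + 1)) (fun o => -(sgz p (s.sg (l + 1)) *
          m.P p (l / (m.G + 2)) (s.nd (l + 1)) (s.qa (l / (m.G + 2) + 1)) s.R o)) s.R }
    else if s.md (l + 1) = 1 ∧ s.nd (l + 1) < l % (m.G + 2) then
      { s with R := addR (s.nd (l + 1)) (fun o => sgz p (s.sg (l + 1)) *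
          m.V p (l / (m.G + 2)) (s.nd (l + 1)) (s.qa (l / (m.G + 2) + 1)) o) s.R }
    else s

/-- The states agree in all which the procedure of the level `l` does not use as its work space. -/
def Agree (l : ℕ) (s t : St p) : Prop :=
  s.R = t.R ∧ (∀ k, l ≤ k → s.md k = t.md k ∧ s.nd k = t.nd k ∧ s.sg k = t.sg k) ∧
    ∀ k, l ≤ k * (m.G + 2) → s.qa k = t.qa k ∧ s.ac k = t.ac k ∧ s.sv k = t.sv k

end

end Mach

end Pool.Agent.Helper28.Ram
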