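import Pool.Agent.Helper28.Ram.Goals

/-!
# The simulation on digits computes the state of the machine
-/

namespace Pool.Agent.Helper28.Ram

open Pool.Agent.Helper65.LinSpace Pool.Agent.Helper78.Mpc Finset

namespace Mach

variable {m : Mach} {p : ℕ}

theorem cf_lt {m : Mach} (hm : m.Ok) (t : ℕ) :
    (m.conf t).1 < 2 ^ m.σ ∧ ∀ a, (m.conf t).2 a < 2 ^ m.σ := by
  unfold conf
  induction t with
  | zero => exact ⟨hm.hq0, hm.hM0⟩
  | succ t ih =>
    refine ⟨hm.hN _ _, fun a => ?_⟩
    show Function.update (cf m.A m.N m.W m.q0 m.M0 t).2 (m.A (cf m.A m.N m.W m.q0 m.M0 t).1)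
      (m.W (cf m.A m.N m.W m.q0 m.M0 t).1 ((cf m.A m.N m.W m.q0 m.M0 t).2
        (m.A (cf m.A m.N m.W m.q0 m.M0 t).1))) a < 2 ^ m.σ
    by_cases h : a = m.A (cf m.A m.N m.W m.q0 m.M0 t).1
    · subst h
      rw [Function.update_self]
      exact hm.hW _ _
    · rw [Function.update_of_ne h]
      exact ih.2 a

theorem rel_init [hp : Fact p.Prime] {J K : ℕ} (hf : m.Fit p J K) :
    m.Rel J K (trc (7 * J) (m.initA K)) (m.s0 p (K * (m.G + 2))) := by
  have hp0 := hp.out.pos
  refine ⟨fun x hx => ?_, fun t _ => ?_⟩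
  · have h1 : trc (7 * J) (m.initA K) x = m.initA K x := if_pos hx
    rw [h1]
    have h4 := hf.h4
    have h5 := hf.h5
    set l := K * (m.G + 2) with hl
    have e : m.initA K x = m.enc (m.s0 p l) x := by
      unfold initA enc s0 St.call
      rw [← hl]
      simp only [ifz_eq01]
      by_cases hx1 : x = 7 * l + 1
      · have a1 : x % 7 = 1 := by omega
        have a2 : x / 7 = l := by omega
        rw [if_pos hx1, a1, a2]
        simp
      · rw [if_neg hx1]
        by_cases hx2 : x = 7 * l + 2
        · have a1 : x % 7 = 2 := by omega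
          have a2 : x / 7 = l := by omega
          rw [if_pos hx2, a1, a2]
          simp
        · rw [if_neg hx2]
          by_cases c0 : x % 7 = 0
          · simp [c0]
          by_cases c1 : x % 7 = 1
          · have a2 : x / 7 ≠ l := by omega
            simp [c1, Function.update_of_ne a2]
          by_cases c2 : x % 7 = 2
          · have a2 : x / 7 ≠ l := by omega
            simp [c2, Function.update_of_ne a2]
          by_cases c3 : x % 7 = 3
          · by_cases a2 : x / 7 = l
            · simp [c3, a2]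
            · simp [c3, Function.update_of_ne a2]
          by_cases c4 : x % 7 = 4
          · simp [c4, dig]
          by_cases c5 : x % 7 = 5
          · simp [c5]
          · rw [if_neg c0, if_neg c1, if_neg c2, if_neg c3, if_neg c4, if_neg c5]
            simp
    refine ⟨e, ?_⟩
    unfold initA
    simp only [ifz_eq01]
    split_ifs <;> omega
  · show (0 : ℕ) < 2 ^ m.σ
    positivity

theorem rel_proc (hREL : REL_stmt) [Fact p.Prime] (hm : m.Ok) {J K : ℕ} (hf : m.Fit p J K) :
    ∀ l ≤ K * (m.G + 2), ∀ (a : ℕ → ℕ) (s : St p), m.Rel J K a s →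
      m.Rel J K (prc (7 * J) (m.cnt p) (m.baseA p) (m.opA p) l a) (m.proc l s) := by
  obtain ⟨h1, h2⟩ := hREL m p hm J K hf
  intro l
  induction l with
  | zero =>
    intro _ a s h
    exact h2 a s h
  | succ l ih =>
    intro hl a s h
    show m.Rel J K (iter (fun j s => prc (7 * J) (m.cnt p) (m.baseA p) (m.opA p) l
      (trc (7 * J) (m.opA p l j s))) (m.cnt p l) a) (iter (fun j s => m.proc l (m.op l j s))
        (m.cnt p l) s)
    generalize m.cnt p l = n
    induction n with
    | zero => exact h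
    | succ n ihn => exact ih (by omega) _ _ (h1 l (by omega) n _ _ ihn)

theorem sim_eq (hREL : REL_stmt) (hFINAL : FINAL_stmt) [hp : Fact p.Prime] (hm : m.Ok) {J K : ℕ}
    (hf : m.Fit p J K) (hd : m.σ * (m.b ^ 2 * (m.G + 1) + 1) < p - 1) :
    m.sim p J K = (m.conf (K * (m.G * m.b))).1 := by
  have hσ := hm.hσ
  have hb := hm.hb
  have hrel := rel_proc hREL hm hf (K * (m.G + 2)) le_rfl _ _ (rel_init hf)
  have hlt := (cf_lt hm (K * (m.G * m.b))).1
  unfold sim
  rw [← tab_dig _ m.σ hlt]
  refine tab_congr fun o ho => ?_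
  have hwd : m.σ ≤ m.wd := by
    unfold wd
    nlinarith
  have how : o < m.wd := lt_of_lt_of_le ho hwd
  have hx : m.G * m.wd + o < J := by
    have h1 := hf.h1
    rw [add_mul, one_mul] at h1
    omega
  obtain ⟨h1, _⟩ := hrel.1 (7 * (m.G * m.wd + o)) (by omega)
  rw [h1]
  unfold enc
  have e1 : 7 * (m.G * m.wd + o) % 7 = 0 := by omega
  have e2 : 7 * (m.G * m.wd + o) / 7 = m.G * m.wd + o := by omega
  rw [if_pos e1, e2, div_eq_block how, mod_eq_block how, hFINAL m p hm hd K o]
  unfold T topc cell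
  rw [lt01, if_pos how, one_mul, lt01, if_pos ho, ifz_ne one_ne_zero]
  have h2 := dig_lt (q := 2) (by norm_num) (m.conf (K * (m.G * m.b))).1 o
  rw [ZMod.val_natCast_of_lt (lt_of_lt_of_le h2 hp.out.two_le), Nat.mod_eq_of_lt h2]

end Mach

end Pool.Agent.Helper28.Ram
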